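import Mathlib
import Pool.Agent.Y902.FB.ExR
import Pool.Agent.Q103.FC.Zero

/-!
# The Fermat-Catalan equation: two bases `g(t)`, `h(t)` and any multiple of `t ^ s` as third base

For every `K` there is `δ > 0` such that for every large integer `t` and all integer polynomials `g`,
`h` of degree at most `K`, with coefficients at most `t ^ δ` in absolute value and with constant terms
`± 1`, such that `g(t), h(t) ≥ 2` are coprime: if `t ^ s` divides the integer `a ≥ 2`, `a ≤ exp (t ^ δ)`,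
and `s m ≥ 2 K + 1`, `m, n, k ≥ 2`, then `a ^ m` is not `± g(t) ^ n ± h(t) ^ k`.

For `K = 1`: let `b ≡ ± 1` and `c ≡ ± 1` modulo `t`, `b, c ≤ t ^ (1 + δ)`. If `t ^ 2` divides `a`, then
`a`, `b`, `c` are not the bases of a solution with exponents at least two; if only `t` divides `a`, then
the exponent of `a` is two in each such solution. The integer `a` is otherwise free.
-/

set_option autoImplicit false

namespace Pool.Agent.Results.MP_2738db_nt.FreeThirdMultiple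

open Polynomial Filter Topology Pool.Agent.Q103.FC Pool.Agent.Y902.FB

/-- Integer polynomials of degree at most `K` with all coefficients at most `H` in absolute value. -/
def Small (K : ℕ) (H : ℝ) (P : ℤ[X]) : Prop :=
  P.natDegree ≤ K ∧ ∀ i, |(P.coeff i : ℝ)| ≤ H

/-- All conditions on `t`. -/
theorem large (K N κ : ℕ) (hN : 0 < N) (C : ℝ) :
    ∃ δ : ℝ, 0 < δ ∧ ∀ᶠ t : ℕ in atTop, 2 ≤ t ∧ (K : ℝ) + 1 ≤ t ∧
      (t : ℝ) ^ δ ≤ (t : ℝ) ^ (1 / (8 * N : ℝ)) ∧
      (K + 2) * Real.log t ≤ (t : ℝ) ^ δ ∧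
      1 ≤ (t : ℝ) ^ (1 / (8 * N : ℝ)) ∧
      (t : ℝ) ^ (1 / (8 * N : ℝ)) + 3 ≤ t ∧
      2 * ((t : ℝ) ^ (1 / (8 * N : ℝ)) * (t : ℝ) ^ (1 / (8 * N : ℝ))) ^ N < t ∧
      C * ((t : ℝ) ^ δ) ^ κ ≤ (t : ℝ) ^ (1 / (8 * N : ℝ)) := by
  have hNR : (0 : ℝ) < N := by exact_mod_cast hN
  obtain ⟨δ, hδ⟩ : ∃ δ : ℝ, δ = 1 / (16 * N * (κ + 1)) := ⟨_, rfl⟩
  have hδ0 : 0 < δ := by rw [hδ]; positivity
  refine ⟨δ, hδ0, ?_⟩
  have hw : Tendsto (fun t : ℕ => (t : ℝ) ^ (1 / (16 * N) : ℝ)) atTop atTop :=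
    (tendsto_rpow_atTop (by positivity)).comp tendsto_natCast_atTop_atTop
  have hsmall : ∀ᶠ t : ℕ in atTop, (K + 2) * Real.log (t : ℝ) ≤ (t : ℝ) ^ δ := by
    have h1 := (isLittleO_log_rpow_atTop hδ0).bound
      (show (0 : ℝ) < 1 / (K + 2) by positivity)
    have h2 := tendsto_natCast_atTop_atTop.eventually h1
    filter_upwards [h2, eventually_ge_atTop 1] with t ht ht1
    have ht1' : (1 : ℝ) ≤ t := by exact_mod_cast ht1
    rw [Real.norm_of_nonneg (Real.log_nonneg ht1'), Real.norm_of_nonneg (by positivity)] at ht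
    have hK : (0 : ℝ) < K + 2 := by positivity
    calc (K + 2) * Real.log (t : ℝ) ≤ (K + 2) * (1 / (K + 2) * (t : ℝ) ^ δ) :=
          mul_le_mul_of_nonneg_left ht hK.le
      _ = (t : ℝ) ^ δ := by field_simp
  filter_upwards [hw.eventually_ge_atTop |C|, hsmall, eventually_ge_atTop 81,
    eventually_ge_atTop (K + 1)] with t h1 h5 h6 h7
  have hT : (81 : ℝ) ≤ t := by exact_mod_cast h6
  have hT0 : (0 : ℝ) < t := by linarith
  obtain ⟨B, hB⟩ : ∃ B : ℝ, B = (t : ℝ) ^ (1 / (8 * N : ℝ)) := ⟨_, rfl⟩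
  obtain ⟨w, hwd⟩ : ∃ w : ℝ, w = (t : ℝ) ^ (1 / (16 * N) : ℝ) := ⟨_, rfl⟩
  rw [← hwd] at h1
  have hBw : B = w * w := by
    rw [hB, hwd, ← Real.rpow_add hT0]
    congr 1
    field_simp
    norm_num
  have hB1 : 1 ≤ B := by rw [hB]; exact Real.one_le_rpow (by linarith) (by positivity)
  have hw1 : 1 ≤ w := by rw [hwd]; exact Real.one_le_rpow (by linarith) (by positivity)
  obtain ⟨v, hv⟩ : ∃ v : ℝ, v = (t : ℝ) ^ (1 / 4 : ℝ) := ⟨_, rfl⟩
  have htv : (t : ℝ) = v ^ 4 := by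
    rw [hv, ← Real.rpow_natCast, ← Real.rpow_mul hT0.le]
    norm_num
  have hv3 : 3 ≤ v := by
    by_contra hcon
    push Not at hcon
    have hv0 : 0 ≤ v := by rw [hv]; positivity
    have : v ^ 4 < 3 ^ 4 := pow_lt_pow_left₀ hcon hv0 (by norm_num)
    rw [← htv] at this
    norm_num at this
    linarith
  have hBv : (B * B) ^ N = v := by
    rw [hB, hv, ← Real.rpow_add hT0, ← Real.rpow_natCast, ← Real.rpow_mul hT0.le]
    congr 1
    field_simp
    norm_num
  have hBlev : B ≤ v := by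
    rw [← hBv]
    have h8 : B ≤ B * B := by nlinarith
    exact h8.trans (le_self_pow₀ (by nlinarith) (by omega))
  have hvt : 27 * v ≤ t := by
    rw [htv]
    have : v ^ 4 = v ^ 3 * v := by ring
    rw [this]
    have h9 : (3 : ℝ) ^ 3 ≤ v ^ 3 := pow_le_pow_left₀ (by norm_num) hv3 3
    norm_num at h9
    nlinarith
  have hδw : ((t : ℝ) ^ δ) ^ κ ≤ w := by
    rw [← Real.rpow_mul_natCast hT0.le, hwd]
    apply Real.rpow_le_rpow_of_exponent_le (by linarith)
    have hκ : (0 : ℝ) ≤ κ := by positivity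
    rw [hδ, div_mul_eq_mul_div, one_mul, div_le_div_iff₀ (by positivity) (by positivity)]
    nlinarith
  have hδ8 : (t : ℝ) ^ δ ≤ B := by
    rw [hB]
    apply Real.rpow_le_rpow_of_exponent_le (by linarith)
    have hκ : (0 : ℝ) ≤ κ := by positivity
    rw [hδ, div_le_div_iff₀ (by positivity) (by positivity)]
    nlinarith
  rw [← hB]
  refine ⟨by omega, by exact_mod_cast h7, hδ8, h5, hB1, by linarith, ?_, ?_⟩
  · rw [hBv]; linarith
  · have h8 : C * ((t : ℝ) ^ δ) ^ κ ≤ |C| * w :=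
      mul_le_mul (le_abs_self C) hδw (by positivity) (abs_nonneg C)
    have h9 : |C| * w ≤ w * w := mul_le_mul_of_nonneg_right h1 (by linarith)
    rw [hBw]
    linarith

/-- The values are at most a power of `t`. -/
theorem value {P : ℤ[X]} {K t : ℕ} {H : ℝ} (hP : Small K H P) (ht : 2 ≤ t) (hKt : (K : ℝ) + 1 ≤ t)
    (hHt : H ≤ t) (h2 : 2 ≤ P.eval (t : ℤ)) :
    Real.log ((P.eval (t : ℤ) : ℤ) : ℝ) ≤ (K + 2) * Real.log t := by
  have hT : (2 : ℝ) ≤ t := by exact_mod_cast ht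
  obtain ⟨hd, hc⟩ := hP
  have h1 : ((P.eval (t : ℤ) : ℤ) : ℝ) ≤ (t : ℝ) ^ (K + 2) := by
    rw [eval_eq_sum_range]
    push_cast
    calc ∑ i ∈ Finset.range (P.natDegree + 1), (P.coeff i : ℝ) * (t : ℝ) ^ i
        ≤ ∑ i ∈ Finset.range (P.natDegree + 1), (t : ℝ) * (t : ℝ) ^ K := by
          apply Finset.sum_le_sum
          intro i hi
          rw [Finset.mem_range] at hi
          have k1 : (P.coeff i : ℝ) ≤ t := (le_abs_self _).trans ((hc i).trans hHt)
          have k2 : (t : ℝ) ^ i ≤ (t : ℝ) ^ K := pow_le_pow_right₀ (by linarith) (by omega)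
          calc (P.coeff i : ℝ) * (t : ℝ) ^ i ≤ (t : ℝ) * (t : ℝ) ^ i :=
                mul_le_mul_of_nonneg_right k1 (by positivity)
            _ ≤ (t : ℝ) * (t : ℝ) ^ K := mul_le_mul_of_nonneg_left k2 (by positivity)
      _ = ((P.natDegree + 1 : ℕ) : ℝ) * ((t : ℝ) * (t : ℝ) ^ K) := by
          rw [Finset.sum_const, Finset.card_range, nsmul_eq_mul]
      _ ≤ (t : ℝ) * ((t : ℝ) * (t : ℝ) ^ K) := by
          apply mul_le_mul_of_nonneg_right _ (by positivity)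
          have : ((P.natDegree + 1 : ℕ) : ℝ) ≤ (K : ℝ) + 1 := by exact_mod_cast (by omega)
          linarith
      _ = (t : ℝ) ^ (K + 2) := by ring
  have h3 : (0 : ℝ) < ((P.eval (t : ℤ) : ℤ) : ℝ) := by
    have : (0 : ℤ) < P.eval (t : ℤ) := by omega
    exact_mod_cast this
  have h4 := Real.log_le_log h3 h1
  rw [Real.log_pow] at h4
  push_cast at h4
  exact h4

theorem geo {P : ℤ[X]} {K : ℕ} {H : ℝ} (hP : Small K H P) (hH : 1 ≤ H) (h0 : |P.coeff 0| ≤ 1) :
    Geo P H := by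
  intro i
  rcases Nat.eq_zero_or_pos i with rfl | hi
  · rw [pow_zero]
    exact_mod_cast h0
  · exact (hP.2 i).trans (le_self_pow₀ hH (by omega))

theorem pos_deg {P : ℤ[X]} {t : ℕ} (h0 : |P.coeff 0| ≤ 1) (h2 : 2 ≤ P.eval (t : ℤ)) :
    0 < P.natDegree := by
  by_contra hcon
  have h1 : P.natDegree = 0 := by omega
  rw [eq_C_of_natDegree_eq_zero h1, eval_C] at h2
  have := (abs_le.mp h0).2
  omega

/-- A value divisible by a power of `t`. -/
theorem X_pow_dvd_of_dvd_eval {P : ℤ[X]} {t : ℕ} (ht : 0 < t) (I : ℕ)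
    (h : ∀ i, i < I → |(P.coeff i : ℝ)| < t) (h0 : (t : ℤ) ^ I ∣ P.eval (t : ℤ)) : X ^ I ∣ P := by
  induction I with
  | zero => simp
  | succ I ih =>
    obtain ⟨Q, hQ⟩ := ih (fun i hi => h i (by omega)) ((pow_dvd_pow _ (by omega)).trans h0)
    have htz : (t : ℤ) ^ I ≠ 0 := by
      have : (t : ℤ) ≠ 0 := by exact_mod_cast ht.ne'
      exact pow_ne_zero _ this
    have h1 : (t : ℤ) ∣ Q.eval (t : ℤ) := by
      rw [hQ, eval_mul, eval_pow, eval_X, pow_succ] at h0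
      exact Int.dvd_of_mul_dvd_mul_left htz h0
    have h2 : ((t : ℤ) - 0) ∣ Q.eval (t : ℤ) - Q.eval 0 := sub_dvd_eval_sub _ _ _
    rw [sub_zero, ← coeff_zero_eq_eval_zero] at h2
    have h2' : (t : ℤ) ∣ Q.coeff 0 := by
      have := dvd_sub h1 h2
      rwa [sub_sub_cancel] at this
    have h3 : P.coeff I = Q.coeff 0 := by
      rw [hQ]
      have := coeff_X_pow_mul Q I 0
      rwa [zero_add] at this
    have h4 : |(Q.coeff 0 : ℝ)| < t := by
      rw [← h3]
      exact h I (by omega)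
    have h5 : |Q.coeff 0| < t := by exact_mod_cast h4
    have h6 : Q.coeff 0 = 0 := by
      by_contra hne
      have h7 := Int.le_of_dvd (abs_pos.mpr hne) ((dvd_abs _ _).mpr h2')
      omega
    rw [pow_succ, hQ]
    exact mul_dvd_mul_left _ (X_dvd_iff.mpr h6)

theorem Wr_ne_zero {g h : ℤ[X]} {K y z t : ℕ} {H : ℝ} (hg : Small K H g) (hH : 0 ≤ H)
    (hHt : H + 3 ≤ t) (hg1 : 0 < g.natDegree) (hh1 : 0 < h.natDegree) (hy : y ≠ 0)
    (hcop : IsCoprime (g.eval (t : ℤ)) (h.eval (t : ℤ))) : Wr g h y z ≠ 0 := by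
  intro h0
  have hg0 : g ≠ 0 := by rintro rfl; simp at hg1
  have hh0 : h ≠ 0 := by rintro rfl; simp at hh1
  have h1 : g ^ y * derivative (h ^ z) - derivative (g ^ y) * h ^ z = 0 := by
    have h2 : g * h * (g ^ y * derivative (h ^ z) - derivative (g ^ y) * h ^ z) = 0 := by
      rw [Wr] at h0
      have k1 := mul_derivative_pow g y
      have k2 := mul_derivative_pow h z
      linear_combination (g * g ^ y) * k2 - (h * h ^ z) * k1 + (g ^ y * h ^ z) * h0
    exact (mul_eq_zero.mp h2).resolve_left (mul_ne_zero hg0 hh0)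
  have hc := coprime_of_eval hg0 hH hg.2 hHt hcop
  have hc' : IsCoprime ((g ^ y).map (Int.castRingHom ℚ)) ((h ^ z).map (Int.castRingHom ℚ)) := by
    rw [Polynomial.map_pow, Polynomial.map_pow]
    exact hc.pow
  have hw : wronskian ((g ^ y).map (Int.castRingHom ℚ)) ((h ^ z).map (Int.castRingHom ℚ)) = 0 := by
    rw [wronskian, derivative_map, derivative_map, ← Polynomial.map_mul, ← Polynomial.map_mul,
      ← Polynomial.map_sub, h1, Polynomial.map_zero]
  have h3 := (hc'.wronskian_eq_zero_iff.mp hw).1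
  have h4 := derivative_eq_zero.mp h3
  rw [natDegree_map_eq_of_injective Int.cast_injective, natDegree_pow] at h4
  rcases Nat.mul_eq_zero.mp h4 with h5 | h5 <;> omega

theorem natDegree_Wr_lt {g h : ℤ[X]} {K : ℕ} (hg : g.natDegree ≤ K) (hh : h.natDegree ≤ K)
    (hg1 : 0 < g.natDegree) (hh1 : 0 < h.natDegree) (m n : ℕ) : (Wr g h m n).natDegree < 2 * K := by
  have h1 : ((n : ℤ[X]) * derivative h * g).natDegree < 2 * K := by
    have h2 := natDegree_mul_le (p := (n : ℤ[X]) * derivative h) (q := g)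
    have h3 := natDegree_mul_le (p := (n : ℤ[X])) (q := derivative h)
    rw [natDegree_natCast] at h3
    have h4 := natDegree_derivative_lt hh1.ne'
    omega
  have h1' : ((m : ℤ[X]) * derivative g * h).natDegree < 2 * K := by
    have h2 := natDegree_mul_le (p := (m : ℤ[X]) * derivative g) (q := h)
    have h3 := natDegree_mul_le (p := (m : ℤ[X])) (q := derivative g)
    rw [natDegree_natCast] at h3
    have h4 := natDegree_derivative_lt hg1.ne'
    omega
  rw [Wr]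
  exact lt_of_le_of_lt (natDegree_sub_le _ _) (max_lt h1 h1')

/-- The common part. -/
theorem core {K N y z t : ℕ} {H : ℝ} {g h : ℤ[X]} {σ τ : ℤ} (hσ : |σ| = 1) (hτ : |τ| = 1)
    (hN : N = 2 * K + 1) (ht : 2 ≤ t) (hH : 1 ≤ H) (hHt : H + 3 ≤ t)
    (hbig : 2 * (H * H) ^ N < t) (hg : Small K H g) (hh : Small K H h)
    (g0 : |g.coeff 0| = 1) (h0 : |h.coeff 0| = 1)
    (hg2 : 2 ≤ g.eval (t : ℤ)) (hh2 : 2 ≤ h.eval (t : ℤ))
    (cgh : IsCoprime (g.eval (t : ℤ)) (h.eval (t : ℤ)))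
    (hy0 : y ≠ 0) (hy : (y : ℝ) ≤ H) (hz : (z : ℝ) ≤ H)
    (hdvd : (t : ℤ) ^ N ∣ σ * g.eval (t : ℤ) ^ y + τ * h.eval (t : ℤ) ^ z) : False := by
  have hg1 := pos_deg g0.le hg2
  have hh1 := pos_deg h0.le hh2
  have hhne : h ≠ 0 := by rintro rfl; simp at hh1
  have hW := Wr_ne_zero (z := z) hg (by linarith) hHt hg1 hh1 hy0 cgh
  have hne : ∀ a : ℤ, |a| = 1 → a ≠ 0 := by rintro a ha rfl; simp at ha
  have hd : X ^ N ∣ C σ * g ^ y + C τ * h ^ z := by
    apply X_pow_dvd_of_dvd_eval (by omega : 0 < t)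
    · intro i hi
      have kg := (geo hg hH g0.le).pow (by linarith) y i
      have kh := (geo hh hH h0.le).pow (by linarith) z i
      have hup : ∀ w : ℕ, (w : ℝ) ≤ H → ((w : ℝ) * H) ^ i ≤ (H * H) ^ N := by
        intro w hw
        have k1 : (w : ℝ) * H ≤ H * H := mul_le_mul_of_nonneg_right hw (by linarith)
        calc ((w : ℝ) * H) ^ i ≤ (H * H) ^ i := pow_le_pow_left₀ (by positivity) k1 i
          _ ≤ (H * H) ^ N := pow_le_pow_right₀ (by nlinarith) hi.le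
      rw [coeff_add, coeff_C_mul, coeff_C_mul]
      push_cast
      have hσR : |(σ : ℝ)| = 1 := by exact_mod_cast hσ
      have hτR : |(τ : ℝ)| = 1 := by exact_mod_cast hτ
      have k1 : |(σ : ℝ) * ((g ^ y).coeff i : ℝ)| ≤ (H * H) ^ N := by
        rw [abs_mul, hσR, one_mul]; exact kg.trans (hup y hy)
      have k2 : |(τ : ℝ) * ((h ^ z).coeff i : ℝ)| ≤ (H * H) ^ N := by
        rw [abs_mul, hτR, one_mul]; exact kh.trans (hup z hz)
      have k5 := abs_add_le ((σ : ℝ) * ((g ^ y).coeff i : ℝ)) ((τ : ℝ) * ((h ^ z).coeff i : ℝ))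
      linarith
    · simp only [eval_add, eval_mul, eval_C, eval_pow]
      exact hdvd
  rw [hN] at hd
  have dU : g * derivative (C σ * g ^ y) = (y : ℤ[X]) * derivative g * (C σ * g ^ y) := by
    rw [derivative_C_mul, mul_left_comm, mul_derivative_pow]
    ring
  have dV : h * derivative (C τ * h ^ z) = (z : ℤ[X]) * derivative h * (C τ * h ^ z) := by
    rw [derivative_C_mul, mul_left_comm, mul_derivative_pow]
    ring
  have e1 : X ^ (2 * K) ∣ C τ * h ^ z * Wr g h y z := by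
    have h1 : C τ * h ^ z * Wr g h y z =
        g * h * derivative (C σ * g ^ y + C τ * h ^ z) -
          (y : ℤ[X]) * derivative g * h * (C σ * g ^ y + C τ * h ^ z) := by
      rw [Wr, derivative_add]
      linear_combination (-h) * dU - g * dV
    rw [h1]
    exact dvd_sub (Dvd.dvd.mul_left (X_pow_dvd_derivative hd) _)
      (Dvd.dvd.mul_left ((pow_dvd_pow _ (by omega)).trans hd) _)
  have hV0 : (C τ * h ^ z).coeff 0 ≠ 0 := by
    rw [coeff_C_mul, coeff_zero_eq_eval_zero, eval_pow, ← coeff_zero_eq_eval_zero]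
    exact mul_ne_zero (hne τ hτ) (pow_ne_zero _ (hne _ h0))
  exact hW (eq_zero_of_X_pow_dvd (cancel hV0 e1) (natDegree_Wr_lt hg.1 hh.1 hg1 hh1 y z))

/-- **Two bases `g(t)`, `h(t)` and any multiple of `t ^ s`.** -/
theorem result (K : ℕ) : ∃ δ : ℝ, 0 < δ ∧ ∃ t₀ : ℕ, ∀ t : ℕ, t₀ ≤ t → ∀ g h : ℤ[X],
    Small K ((t : ℝ) ^ δ) g → Small K ((t : ℝ) ^ δ) h → |g.coeff 0| = 1 → |h.coeff 0| = 1 →
    2 ≤ g.eval (t : ℤ) → 2 ≤ h.eval (t : ℤ) → IsCoprime (g.eval (t : ℤ)) (h.eval (t : ℤ)) →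
    ∀ a m n k s : ℕ, 2 ≤ a → (a : ℝ) ≤ Real.exp ((t : ℝ) ^ δ) → t ^ s ∣ a →
      2 * K + 1 ≤ s * m → 2 ≤ m → 2 ≤ n → 2 ≤ k →
      (a : ℤ) ^ m + g.eval (t : ℤ) ^ n ≠ h.eval (t : ℤ) ^ k ∧
        g.eval (t : ℤ) ^ n + h.eval (t : ℤ) ^ k ≠ (a : ℤ) ^ m := by
  obtain ⟨C₀, κ, hC, hexp⟩ := exp_bound_real
  obtain ⟨N, hN⟩ : ∃ N : ℕ, N = 2 * K + 1 := ⟨_, rfl⟩
  have hN0 : 0 < N := by omega
  obtain ⟨δ, hδ, hev⟩ := large K N κ hN0 C₀
  obtain ⟨t₀, ht₀⟩ := eventually_atTop.mp hev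
  refine ⟨δ, hδ, t₀, ?_⟩
  intro t ht g h hg hh g0 h0 hg2 hh2 cgh a m n k s ha hae hta hsm hm hn hk
  obtain ⟨e1, e2, e7, e8, e3, e4, e5, e6⟩ := ht₀ t ht
  obtain ⟨H, hH⟩ : ∃ H : ℝ, H = (t : ℝ) ^ (1 / (8 * N : ℝ)) := ⟨_, rfl⟩
  rw [← hH] at e3 e4 e5 e6 e7
  have hg' : Small K H g := ⟨hg.1, fun i => (hg.2 i).trans e7⟩
  have hh' : Small K H h := ⟨hh.1, fun i => (hh.2 i).trans e7⟩
  have vg := (value hg' e1 e2 (by linarith) hg2).trans e8
  have vh := (value hh' e1 e2 (by linarith) hh2).trans e8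
  have va : Real.log ((a : ℤ) : ℝ) ≤ (t : ℝ) ^ δ := by
    have : (0 : ℝ) < ((a : ℤ) : ℝ) := by
      have : 0 < a := by omega
      exact_mod_cast this
    rw [Real.log_le_iff_le_exp this]
    exact_mod_cast hae
  have hdvd : (t : ℤ) ^ N ∣ (a : ℤ) ^ m := by
    have h1 : t ^ N ∣ a ^ m := by
      have h2 : t ^ (s * m) ∣ a ^ m := by
        rw [pow_mul]
        exact pow_dvd_pow_of_dvd hta m
      exact (pow_dvd_pow t (by omega)).trans h2
    exact_mod_cast h1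
  obtain ⟨b, hb⟩ := Int.eq_ofNat_of_zero_le (show 0 ≤ g.eval (t : ℤ) by omega)
  obtain ⟨c, hc⟩ := Int.eq_ofNat_of_zero_le (show 0 ≤ h.eval (t : ℤ) by omega)
  have cbc : Nat.Coprime b c := by
    rw [← Nat.isCoprime_iff_coprime, ← hb, ← hc]
    exact cgh
  have bound : ∀ {u v w : ℕ} {p q r : ℕ}, 2 ≤ u → 2 ≤ v → 2 ≤ w → 2 ≤ p → 2 ≤ q → 2 ≤ r →
      Real.log ((u : ℤ) : ℝ) ≤ (t : ℝ) ^ δ → Real.log ((v : ℤ) : ℝ) ≤ (t : ℝ) ^ δ →
      Real.log ((w : ℤ) : ℝ) ≤ (t : ℝ) ^ δ →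
      Nat.Coprime u v → Nat.Coprime u w → Nat.Coprime v w → u ^ p + v ^ q = w ^ r →
      (p : ℝ) ≤ H ∧ (q : ℝ) ≤ H ∧ (r : ℝ) ≤ H := by
    intro u v w p q r hu hv hw hp hq hr lu lv lw cuv cuw cvw heq
    obtain ⟨k1, k2, k3⟩ := hexp u v w p q r (by omega) (by omega) (by omega)
      cuv cuw cvw hp hq hr heq
    have hmax : Real.log ((max u (max v w) : ℕ) : ℝ) ≤ (t : ℝ) ^ δ := by
      have k4 : max u (max v w) = u ∨ max u (max v w) = v ∨ max u (max v w) = w := by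
        rcases max_choice u (max v w) with h | h
        · exact Or.inl h
        · rcases max_choice v w with h' | h'
          · exact Or.inr (Or.inl (h.trans h'))
          · exact Or.inr (Or.inr (h.trans h'))
      rcases k4 with k4 | k4 | k4
      · rw [k4]; exact_mod_cast lu
      · rw [k4]; exact_mod_cast lv
      · rw [k4]; exact_mod_cast lw
    have hmax0 : 0 ≤ Real.log ((max u (max v w) : ℕ) : ℝ) := Real.log_natCast_nonneg _
    have hfin : C₀ * Real.log ((max u (max v w) : ℕ) : ℝ) ^ κ ≤ H :=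
      (mul_le_mul_of_nonneg_left (pow_le_pow_left₀ hmax0 hmax κ) hC.le).trans e6
    exact ⟨(k1 hu).trans hfin, (k2 hv).trans hfin, k3.trans hfin⟩
  have lb : Real.log ((b : ℤ) : ℝ) ≤ (t : ℝ) ^ δ := by rw [← hb]; exact vg
  have lc : Real.log ((c : ℤ) : ℝ) ≤ (t : ℝ) ^ δ := by rw [← hc]; exact vh
  have hb2 : 2 ≤ b := by omega
  have hc2 : 2 ≤ c := by omega
  -- coprimality of `a`
  have cop : ∀ {u v w : ℕ} {p q r : ℕ}, p ≠ 0 → q ≠ 0 → r ≠ 0 → u ^ p + v ^ q = w ^ r →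
      (Nat.Coprime v w → Nat.Coprime u v ∧ Nat.Coprime u w) ∧
      (Nat.Coprime u v → Nat.Coprime u w ∧ Nat.Coprime v w) := by
    intro u v w p q r hp hq hr heq
    constructor
    · intro hvw
      have h1 : Nat.Coprime (v ^ q) (w ^ r) := Nat.Coprime.pow _ _ hvw
      constructor
      · have h2 : Nat.Coprime (v ^ q) (u ^ p) := by
          rw [← heq] at h1
          exact (Nat.coprime_add_self_right).mp h1
        exact ((Nat.coprime_pow_left_iff (Nat.pos_of_ne_zero hq) _ _).mp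
          ((Nat.coprime_pow_right_iff (Nat.pos_of_ne_zero hp) _ _).mp h2)).symm
      · have h2 : Nat.Coprime (w ^ r) (u ^ p) := by
          have h3 : Nat.Coprime (u ^ p + v ^ q) (v ^ q) := by rw [heq]; exact h1.symm
          have h4 : Nat.Coprime (u ^ p) (v ^ q) := (Nat.coprime_add_self_left).mp h3
          rw [← heq]
          exact Nat.coprime_comm.mp ((Nat.coprime_self_add_right).mpr h4)
        exact ((Nat.coprime_pow_left_iff (Nat.pos_of_ne_zero hr) _ _).mp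
          ((Nat.coprime_pow_right_iff (Nat.pos_of_ne_zero hp) _ _).mp h2)).symm
    · intro huv
      have h1 : Nat.Coprime (u ^ p) (v ^ q) := Nat.Coprime.pow _ _ huv
      constructor
      · have h2 : Nat.Coprime (u ^ p) (w ^ r) := by
          rw [← heq]
          exact (Nat.coprime_self_add_right).mpr h1
        exact ((Nat.coprime_pow_left_iff (Nat.pos_of_ne_zero hp) _ _).mp
          ((Nat.coprime_pow_right_iff (Nat.pos_of_ne_zero hr) _ _).mp h2))
      · have h2 : Nat.Coprime (v ^ q) (w ^ r) := by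
          rw [← heq]
          exact (Nat.coprime_add_self_right).mpr h1.symm
        exact ((Nat.coprime_pow_left_iff (Nat.pos_of_ne_zero hq) _ _).mp
          ((Nat.coprime_pow_right_iff (Nat.pos_of_ne_zero hr) _ _).mp h2))
  constructor
  · intro heq
    have heqN : a ^ m + b ^ n = c ^ k := by
      rw [hb, hc] at heq
      exact_mod_cast heq
    obtain ⟨cab, cac⟩ := (cop (by omega) (by omega) (by omega) heqN).1 cbc
    obtain ⟨b1, b2, b3⟩ := bound ha hb2 hc2 hm hn hk va lb lc cab cac cbc heqN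
    refine core (σ := -1) (τ := 1) (by simp) (by simp) hN e1 e3 e4 e5 hg' hh' g0 h0 hg2 hh2 cgh
      (by omega : n ≠ 0) b2 b3 ?_
    have : (-1 : ℤ) * g.eval (t : ℤ) ^ n + 1 * h.eval (t : ℤ) ^ k = (a : ℤ) ^ m := by
      rw [← heq]; ring
    rw [this]
    exact hdvd
  · intro heq
    have heqN : b ^ n + c ^ k = a ^ m := by
      rw [hb, hc] at heq
      exact_mod_cast heq
    obtain ⟨cba, cca⟩ := (cop (by omega) (by omega) (by omega) heqN).2 cbc
    obtain ⟨b1, b2, b3⟩ := bound hb2 hc2 ha hn hk hm lb lc va cbc cba cca heqN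
    refine core (σ := 1) (τ := 1) (by simp) (by simp) hN e1 e3 e4 e5 hg' hh' g0 h0 hg2 hh2 cgh
      (by omega : n ≠ 0) b1 b2 ?_
    have : (1 : ℤ) * g.eval (t : ℤ) ^ n + 1 * h.eval (t : ℤ) ^ k = (a : ℤ) ^ m := by
      rw [← heq]; ring
    rw [this]
    exact hdvd

end Pool.Agent.Results.MP_2738db_nt.FreeThirdMultiple
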