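import Mathlib
import Pool.Agent.Y902.FB.ExR
import Pool.Agent.Q103.FC.Step

/-!
# The Fermat-Catalan equation in values of polynomials with related leading coefficients

For every `K` there is `δ > 0` such that for every large integer `t` and all integer polynomials `f`,
`g`, `h` of degree between `1` and `K`, with coefficients at most `t ^ δ` in absolute value, and with
leading coefficients `α`, `β`, `γ` between `1` and `K` such that `α ^ deg g = β ^ deg f` and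
`β ^ deg h = γ ^ deg g` (for example monic polynomials, or polynomials of the same degree with the
same leading coefficient): if `f(t)`, `g(t)`, `h(t)` are pairwise coprime, then every solution of
`f(t) ^ x + g(t) ^ y = h(t) ^ z` with `x, y, z ≥ 2` is the value of a polynomial identity
`f ^ x + g ^ y = h ^ z`, and `1 / x + 1 / y + 1 / z > 1`.
-/

set_option autoImplicit false

namespace Pool.Agent.Results.MP_2738db_nt.PolynomialBases

open Polynomial Filter Topology Pool.Agent.Q103.FC Pool.Agent.Y902.FB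

/-- Integer polynomials of degree between `1` and `K`, with a leading coefficient between `1` and `K`
and with all coefficients at most `H` in absolute value. -/
def Adm (K : ℕ) (H : ℝ) (P : ℤ[X]) : Prop :=
  0 < P.natDegree ∧ P.natDegree ≤ K ∧ 0 < P.leadingCoeff ∧ P.leadingCoeff ≤ K ∧
    ∀ i, |(P.coeff i : ℝ)| ≤ H

/-- All conditions on `t`. -/
theorem large (K N κ : ℕ) (hKN : K ≤ N) (hN : 0 < N) (C : ℝ) :
    ∀ᶠ t : ℕ in atTop, 2 ≤ t ∧ 2 ≤ Real.log t ∧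
      1 ≤ (t : ℝ) ^ (1 / (8 * N : ℝ)) ∧
      4 * (t : ℝ) ^ (1 / (8 * N : ℝ)) ≤ t ∧
      (t : ℝ) ^ (1 / (8 * N : ℝ)) + 3 ≤ t ∧
      16 * (2 * ((K + 1) * (t : ℝ) ^ (1 / (8 * N : ℝ))) ^ K) ≤ t ∧
      3 * (t : ℝ) ^ (1 / 4 : ℝ) * (4 * (t : ℝ) ^ (1 / (8 * N : ℝ)) / t) ≤ 1 / 4 ∧
      Real.log ((t : ℝ) ^ (1 / 4 : ℝ)) + Real.log (2 * ((K + 1) * (t : ℝ) ^ (1 / (8 * N : ℝ))) ^ K) +
        1 / 2 < Real.log t ∧
      (K : ℝ) ^ 2 * Real.log K + 1 / 2 < Real.log t ∧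
      6 * ((K + 1) * (t : ℝ) ^ (1 / (8 * N : ℝ))) ^ N < t ∧
      C * (3 * K * Real.log t) ^ κ ≤ (t : ℝ) ^ (1 / 4 : ℝ) ∧
      Real.log K ≤ Real.log t := by
  -- `w = t ^ (1 / 8)`
  have hw : Tendsto (fun t : ℕ => (t : ℝ) ^ (1 / 8 : ℝ)) atTop atTop :=
    (tendsto_rpow_atTop (by norm_num)).comp tendsto_natCast_atTop_atTop
  have hlog : Tendsto (fun t : ℕ => Real.log (t : ℝ)) atTop atTop :=
    Real.tendsto_log_atTop.comp tendsto_natCast_atTop_atTop
  have hsmall : ∀ᶠ t : ℕ in atTop, Real.log (t : ℝ) ≤ (t : ℝ) ^ (1 / (8 * (κ + 1)) : ℝ) := by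
    have h1 := (isLittleO_log_rpow_atTop (show (0 : ℝ) < 1 / (8 * (κ + 1)) by positivity)).bound
      (show (0 : ℝ) < 1 by norm_num)
    have h2 := tendsto_natCast_atTop_atTop.eventually h1
    filter_upwards [h2, eventually_ge_atTop 1] with t ht ht1
    have ht1' : (1 : ℝ) ≤ t := by exact_mod_cast ht1
    rw [one_mul, Real.norm_of_nonneg (Real.log_nonneg ht1'), Real.norm_of_nonneg (by positivity)] at ht
    exact ht
  obtain ⟨A, hA⟩ : ∃ A : ℝ, A = 100 * ((K : ℝ) + 1) ^ N + |C| * (3 * K) ^ κ + 10 := ⟨_, rfl⟩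
  have hA1 : (1 : ℝ) ≤ ((K : ℝ) + 1) ^ N := one_le_pow₀ (by
    have : (0 : ℝ) ≤ K := by positivity
    linarith)
  have hAC : 0 ≤ |C| * (3 * (K : ℝ)) ^ κ := by positivity
  filter_upwards [hw.eventually_ge_atTop A, hlog.eventually_gt_atTop ((K : ℝ) ^ 2 * Real.log K + 1 / 2),
    hlog.eventually_ge_atTop 2, hlog.eventually_ge_atTop (Real.log K), hsmall,
    eventually_ge_atTop 2] with t h1 h2 h3 h4 h5 h6
  have hT : (2 : ℝ) ≤ t := by exact_mod_cast h6
  have hT0 : (0 : ℝ) < t := by linarith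
  obtain ⟨w, hwd⟩ : ∃ w : ℝ, w = (t : ℝ) ^ (1 / 8 : ℝ) := ⟨_, rfl⟩
  rw [← hwd] at h1
  have hwA : 110 ≤ w := by linarith
  have htw : (t : ℝ) = w ^ 8 := by
    rw [hwd, ← Real.rpow_natCast, ← Real.rpow_mul hT0.le]
    norm_num
  have hM : (t : ℝ) ^ (1 / 4 : ℝ) = w ^ 2 := by
    rw [hwd, ← Real.rpow_natCast, ← Real.rpow_mul hT0.le]
    norm_num
  obtain ⟨B, hB⟩ : ∃ B : ℝ, B = (t : ℝ) ^ (1 / (8 * N : ℝ)) := ⟨_, rfl⟩
  have hNR : (0 : ℝ) < N := by exact_mod_cast hN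
  have hBN : B ^ N = w := by
    rw [hB, hwd, ← Real.rpow_natCast, ← Real.rpow_mul hT0.le]
    congr 1
    field_simp
  have hB1 : 1 ≤ B := by rw [hB]; exact Real.one_le_rpow (by linarith) (by positivity)
  have hBw : B ≤ w := by
    rw [← hBN]
    exact le_self_pow₀ hB1 (by omega)
  have hKB : (1 : ℝ) ≤ (K + 1) * B := by
    have : (0 : ℝ) ≤ K := by positivity
    nlinarith
  have hKBN : (((K : ℝ) + 1) * B) ^ N ≤ (K + 1) ^ N * w := by rw [mul_pow, hBN]
  have hKBK : (((K : ℝ) + 1) * B) ^ K ≤ (K + 1) ^ N * w :=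
    (pow_le_pow_right₀ hKB hKN).trans hKBN
  have hAw : 100 * ((K : ℝ) + 1) ^ N ≤ w := by linarith
  have hw0 : 0 < w := by linarith
  have hww : 100 * (((K : ℝ) + 1) ^ N * w) ≤ w ^ 2 := by
    rw [sq]
    nlinarith
  have hw28 : w ^ 3 ≤ w ^ 8 := pow_le_pow_right₀ (by linarith) (by norm_num)
  have hw23 : w ^ 2 ≤ w ^ 8 := pow_le_pow_right₀ (by linarith) (by norm_num)
  have hw13 : 110 * w ≤ w ^ 2 := by nlinarith
  rw [← hB, hM]
  refine ⟨h6, h3, hB1, ?_, ?_, ?_, ?_, ?_, h2, ?_, ?_, h4⟩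
  · rw [htw]; linarith
  · rw [htw]; linarith
  · rw [htw]; linarith
  · rw [htw]
    have e : 3 * w ^ 2 * (4 * B / w ^ 8) = 12 * (w ^ 2 * B) / w ^ 8 := by ring
    rw [e, div_le_div_iff₀ (by positivity) (by norm_num)]
    have h7 : w ^ 2 * B ≤ w ^ 3 := by
      rw [pow_succ w 2]
      exact mul_le_mul_of_nonneg_left hBw (by positivity)
    have h8 : 110 * w ^ 3 ≤ w ^ 4 := by
      rw [pow_succ w 3]
      nlinarith [show 0 < w ^ 3 by positivity]
    have h9 : w ^ 4 ≤ w ^ 8 := pow_le_pow_right₀ (by linarith) (by norm_num)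
    linarith
  · have hpos : 0 < 2 * (((K : ℝ) + 1) * B) ^ K := by positivity
    rw [← Real.log_mul (by positivity) hpos.ne']
    have h7 : Real.exp (1 / 2) ≤ 2 := by
      have h8 : Real.exp (1 / 2) ^ 2 ≤ 2 ^ 2 := by
        rw [← Real.exp_nat_mul]
        norm_num
        linarith [Real.exp_one_lt_d9]
      exact le_of_pow_le_pow_left₀ (by norm_num) (by norm_num) h8
    have h9 : (1 : ℝ) / 2 = Real.log (Real.exp (1 / 2)) := (Real.log_exp _).symm
    rw [h9, ← Real.log_mul (by positivity) (Real.exp_pos _).ne']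
    apply Real.log_lt_log (by positivity)
    have h10 : w ^ 2 * (2 * (((K : ℝ) + 1) * B) ^ K) ≤ w ^ 2 * w ^ 2 :=
      mul_le_mul_of_nonneg_left (by linarith) (by positivity)
    have h11 : w ^ 2 * (2 * (((K : ℝ) + 1) * B) ^ K) * Real.exp (1 / 2) ≤ w ^ 2 * w ^ 2 * 2 :=
      mul_le_mul h10 h7 (Real.exp_pos _).le (by positivity)
    have h12 : w ^ 2 * w ^ 2 * 2 < w ^ 8 := by
      have e : w ^ 8 = w ^ 2 * w ^ 2 * w ^ 4 := by ring
      rw [e]
      apply mul_lt_mul_of_pos_left _ (by positivity)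
      have : w ^ 1 ≤ w ^ 4 := pow_le_pow_right₀ (by linarith) (by norm_num)
      linarith
    rw [htw]
    linarith
  · rw [htw]; linarith
  · have h7 : Real.log t ^ κ ≤ w := by
      calc Real.log t ^ κ ≤ ((t : ℝ) ^ (1 / (8 * (κ + 1)) : ℝ)) ^ κ :=
            pow_le_pow_left₀ (by linarith) h5 κ
        _ = (t : ℝ) ^ ((1 / (8 * (κ + 1)) : ℝ) * κ) := by rw [← Real.rpow_mul_natCast hT0.le]
        _ ≤ (t : ℝ) ^ (1 / 8 : ℝ) := by
            apply Real.rpow_le_rpow_of_exponent_le (by linarith)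
            have hκ : (0 : ℝ) ≤ κ := by positivity
            rw [div_mul_eq_mul_div, one_mul, div_le_div_iff₀ (by positivity) (by norm_num)]
            linarith
        _ = w := hwd.symm
    have h8 : C * (3 * K * Real.log t) ^ κ ≤ |C| * (3 * K) ^ κ * w := by
      rw [mul_pow, ← mul_assoc]
      apply mul_le_mul _ h7 (by positivity) (by positivity)
      exact mul_le_mul_of_nonneg_right (le_abs_self C) (by positivity)
    have h9 : |C| * (3 * K) ^ κ * w ≤ w * w := mul_le_mul_of_nonneg_right (by linarith) hw0.le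
    rw [sq]
    linarith

/-- **Values of polynomials.** -/
theorem result (K : ℕ) : ∃ δ : ℝ, 0 < δ ∧ ∃ t₀ : ℕ, ∀ t : ℕ, t₀ ≤ t → ∀ f g h : ℤ[X],
    Adm K ((t : ℝ) ^ δ) f → Adm K ((t : ℝ) ^ δ) g → Adm K ((t : ℝ) ^ δ) h →
    f.leadingCoeff ^ g.natDegree = g.leadingCoeff ^ f.natDegree →
    g.leadingCoeff ^ h.natDegree = h.leadingCoeff ^ g.natDegree →
    IsCoprime (f.eval (t : ℤ)) (g.eval (t : ℤ)) → IsCoprime (f.eval (t : ℤ)) (h.eval (t : ℤ)) →
    IsCoprime (g.eval (t : ℤ)) (h.eval (t : ℤ)) →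
    ∀ x y z : ℕ, 2 ≤ x → 2 ≤ y → 2 ≤ z →
      f.eval (t : ℤ) ^ x + g.eval (t : ℤ) ^ y = h.eval (t : ℤ) ^ z →
      f ^ x + g ^ y = h ^ z ∧ x * y * z < y * z + z * x + x * y := by
  obtain ⟨C, κ, hC, hexp⟩ := exp_bound_real
  obtain ⟨N, hN⟩ : ∃ N : ℕ, N = ⌈(K : ℝ) ^ 2 * Real.exp ((K : ℝ) ^ 2 * Real.log K + 1 / 2)⌉₊ + K + 1 :=
    ⟨_, rfl⟩
  have hNK : K ≤ N := by omega
  have hN0 : 0 < N := by omega
  obtain ⟨t₀, ht₀⟩ := eventually_atTop.mp (large K N κ hNK hN0 C)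
  have hNR : (0 : ℝ) < N := by exact_mod_cast hN0
  refine ⟨1 / (8 * N : ℝ), by positivity, t₀, ?_⟩
  intro t ht f g h hf hg hh hfg hgh cfg cfh cgh x y z hx hy hz heq
  obtain ⟨e1, e2, e3, e4, e5, e6, e7, e8, e9, e10, e11, e12⟩ := ht₀ t ht
  obtain ⟨B, hB⟩ : ∃ B : ℝ, B = (t : ℝ) ^ (1 / (8 * N : ℝ)) := ⟨_, rfl⟩
  rw [← hB] at hf hg hh e3 e4 e5 e6 e7 e8 e10
  obtain ⟨f1, f2, f3, f4, f5⟩ := hf
  obtain ⟨g1, g2, g3, g4, g5⟩ := hg
  obtain ⟨h1, h2, h3, h4, h5⟩ := hh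
  have hT : (2 : ℝ) ≤ t := by exact_mod_cast e1
  have hT0 : (0 : ℝ) < t := by linarith
  -- the common logarithm
  obtain ⟨L, hL⟩ : ∃ L : ℝ, L = Real.log (f.leadingCoeff : ℝ) / f.natDegree := ⟨_, rfl⟩
  have f1R : (0 : ℝ) < f.natDegree := by exact_mod_cast f1
  have g1R : (0 : ℝ) < g.natDegree := by exact_mod_cast g1
  have fcR : (0 : ℝ) < f.leadingCoeff := by exact_mod_cast f3
  have gcR : (0 : ℝ) < g.leadingCoeff := by exact_mod_cast g3
  have hcR : (0 : ℝ) < h.leadingCoeff := by exact_mod_cast h3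
  have hfL : Real.log (f.leadingCoeff : ℝ) = f.natDegree * L := by
    rw [hL]; field_simp
  have hgL : Real.log (g.leadingCoeff : ℝ) = g.natDegree * L := by
    have k1 : (f.leadingCoeff : ℝ) ^ g.natDegree = (g.leadingCoeff : ℝ) ^ f.natDegree := by
      exact_mod_cast hfg
    have k2 := congrArg Real.log k1
    rw [Real.log_pow, Real.log_pow, hfL] at k2
    have k3 : (f.natDegree : ℝ) * (g.natDegree * L) = f.natDegree * Real.log (g.leadingCoeff : ℝ) := by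
      rw [← k2]; ring
    exact (mul_left_cancel₀ f1R.ne' k3).symm
  have hhL : Real.log (h.leadingCoeff : ℝ) = h.natDegree * L := by
    have k1 : (g.leadingCoeff : ℝ) ^ h.natDegree = (h.leadingCoeff : ℝ) ^ g.natDegree := by
      exact_mod_cast hgh
    have k2 := congrArg Real.log k1
    rw [Real.log_pow, Real.log_pow, hgL] at k2
    have k3 : (g.natDegree : ℝ) * (h.natDegree * L) = g.natDegree * Real.log (h.leadingCoeff : ℝ) := by
      rw [← k2]; ring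
    exact (mul_left_cancel₀ g1R.ne' k3).symm
  have hL0 : 0 ≤ L := by
    rw [hL]
    apply div_nonneg (Real.log_nonneg (by exact_mod_cast f3)) f1R.le
  have hLK : L ≤ Real.log K := by
    have k1 : Real.log (f.leadingCoeff : ℝ) ≤ Real.log K :=
      Real.log_le_log fcR (by exact_mod_cast f4)
    have k2 : L ≤ f.natDegree * L := by
      have : (1 : ℝ) ≤ f.natDegree := by exact_mod_cast f1
      nlinarith
    linarith
  have hK1 : (1 : ℝ) ≤ K := by exact_mod_cast (show 1 ≤ K by omega)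
  have hη0 : 0 ≤ 4 * B / t := by positivity
  have hη1 : 4 * B / t ≤ 1 := by
    rw [div_le_one hT0]; exact e4
  -- the sizes of the values
  have size : ∀ P : ℤ[X], 0 < P.natDegree → P.natDegree ≤ K → 0 < P.leadingCoeff →
      (∀ i, |(P.coeff i : ℝ)| ≤ B) → Real.log (P.leadingCoeff : ℝ) = P.natDegree * L →
      2 ≤ P.eval (t : ℤ) ∧ Real.log ((P.eval (t : ℤ) : ℤ) : ℝ) ≤ 3 * K * Real.log t := by
    intro P p1 p2 p3 p5 pL
    obtain ⟨hp, hs⟩ := log_size e1 (by linarith) e4 p5 p3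
    rw [pL] at hs
    obtain ⟨s1, s2⟩ := abs_le.mp hs
    have p1R : (1 : ℝ) ≤ P.natDegree := by exact_mod_cast p1
    have p2R : (P.natDegree : ℝ) ≤ K := by exact_mod_cast p2
    constructor
    · have k1 : 1 < Real.log ((P.eval (t : ℤ) : ℤ) : ℝ) ∨
          1 ≤ Real.log ((P.eval (t : ℤ) : ℤ) : ℝ) := by
        right
        have k2 : (2 : ℝ) ≤ P.natDegree * Real.log t := by nlinarith
        have k3 : 0 ≤ (P.natDegree : ℝ) * L := by positivity
        linarith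
      by_contra hcon
      have k4 : P.eval (t : ℤ) = 1 := by omega
      rw [k4] at k1
      norm_num at k1
    · have k1 : (P.natDegree : ℝ) * L ≤ K * Real.log t :=
        mul_le_mul p2R (by linarith) hL0 (by positivity)
      have k2 : (P.natDegree : ℝ) * Real.log t ≤ K * Real.log t :=
        mul_le_mul_of_nonneg_right p2R (by linarith)
      have k3 : 1 ≤ K * Real.log t := by nlinarith
      linarith
  obtain ⟨sf1, sf2⟩ := size f f1 f2 f3 f5 hfL
  obtain ⟨sg1, sg2⟩ := size g g1 g2 g3 g5 hgL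
  obtain ⟨sh1, sh2⟩ := size h h1 h2 h3 h5 hhL
  -- the exponents
  have hbound : (x : ℝ) ≤ (t : ℝ) ^ (1 / 4 : ℝ) ∧ (y : ℝ) ≤ (t : ℝ) ^ (1 / 4 : ℝ) ∧
      (z : ℝ) ≤ (t : ℝ) ^ (1 / 4 : ℝ) := by
    obtain ⟨a, ha⟩ := Int.eq_ofNat_of_zero_le (show 0 ≤ f.eval (t : ℤ) by omega)
    obtain ⟨b, hb⟩ := Int.eq_ofNat_of_zero_le (show 0 ≤ g.eval (t : ℤ) by omega)
    obtain ⟨c, hc⟩ := Int.eq_ofNat_of_zero_le (show 0 ≤ h.eval (t : ℤ) by omega)
    rw [ha, hb] at cfg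
    rw [ha, hc] at cfh
    rw [hb, hc] at cgh
    rw [ha, hb, hc] at heq
    rw [ha] at sf1 sf2
    rw [hb] at sg1 sg2
    rw [hc] at sh1 sh2
    obtain ⟨k1, k2, k3⟩ := hexp a b c x y z (by omega) (by omega) (by omega)
      (Nat.isCoprime_iff_coprime.mp cfg) (Nat.isCoprime_iff_coprime.mp cfh)
      (Nat.isCoprime_iff_coprime.mp cgh) hx hy hz (by exact_mod_cast heq)
    have hmax : Real.log ((max a (max b c) : ℕ) : ℝ) ≤ 3 * K * Real.log t := by
      have k4 : max a (max b c) = a ∨ max a (max b c) = b ∨ max a (max b c) = c := by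
        rcases max_choice a (max b c) with h | h
        · exact Or.inl h
        · rcases max_choice b c with h' | h'
          · exact Or.inr (Or.inl (h.trans h'))
          · exact Or.inr (Or.inr (h.trans h'))
      rcases k4 with k4 | k4 | k4
      · rw [k4]; exact_mod_cast sf2
      · rw [k4]; exact_mod_cast sg2
      · rw [k4]; exact_mod_cast sh2
    have hmax0 : 0 ≤ Real.log ((max a (max b c) : ℕ) : ℝ) := Real.log_natCast_nonneg _
    have hfin : C * Real.log ((max a (max b c) : ℕ) : ℝ) ^ κ ≤ (t : ℝ) ^ (1 / 4 : ℝ) :=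
      (mul_le_mul_of_nonneg_left (pow_le_pow_left₀ hmax0 hmax κ) hC.le).trans e11
    exact ⟨(k1 (by omega)).trans hfin, (k2 (by omega)).trans hfin, k3.trans hfin⟩
  obtain ⟨bx, by', bz⟩ := hbound
  have hK2 : (K : ℝ) ^ 2 * L + 1 / 2 ≤ (K : ℝ) ^ 2 * Real.log K + 1 / 2 := by
    have := mul_le_mul_of_nonneg_left hLK (show (0 : ℝ) ≤ (K : ℝ) ^ 2 by positivity)
    linarith
  have hsmall : ∀ w : ℕ, (w : ℝ) ≤ K ^ 2 * Real.exp (K ^ 2 * L + 1 / 2) → w ≤ N := by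
    intro w hw
    have k1 : (w : ℝ) ≤ K ^ 2 * Real.exp ((K : ℝ) ^ 2 * Real.log K + 1 / 2) :=
      hw.trans (mul_le_mul_of_nonneg_left (Real.exp_le_exp.mpr hK2) (by positivity))
    have k2 : (w : ℝ) ≤ (⌈(K : ℝ) ^ 2 * Real.exp ((K : ℝ) ^ 2 * Real.log K + 1 / 2)⌉₊ : ℝ) :=
      k1.trans (Nat.le_ceil _)
    have k3 : w ≤ ⌈(K : ℝ) ^ 2 * Real.exp ((K : ℝ) ^ 2 * Real.log K + 1 / 2)⌉₊ := by exact_mod_cast k2
    omega
  have hall : x ≤ N ∧ y ≤ N ∧ z ≤ N := by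
    rcases le_total (f.eval (t : ℤ) ^ x) (g.eval (t : ℤ) ^ y) with hle | hle
    · obtain ⟨k1, k2, k3⟩ := bounded f1 f2 g1 g2 h1 h2 f3 g3 h3 hL0 hfL hgL hhL e3 f5 g5 h5 e1 e4 le_rfl
        e6 (by omega) (by omega) (by omega) bx by' bz e7 e2 e8 (by linarith) heq hle
      exact ⟨hsmall x k1, hsmall y k2, hsmall z k3⟩
    · obtain ⟨k1, k2, k3⟩ := bounded g1 g2 f1 f2 h1 h2 g3 f3 h3 hL0 hgL hfL hhL e3 g5 f5 h5 e1 e4 le_rfl
        e6 (by omega) (by omega) (by omega) by' bx bz e7 e2 e8 (by linarith)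
        (by rw [add_comm]; exact heq) hle
      exact ⟨hsmall x k2, hsmall y k1, hsmall z k3⟩
  have hid := identity f2 g2 h2 e3 f5 g5 h5 e1 e10 hall.1 hall.2.1 hall.2.2 heq
  have hne : ∀ {P : ℤ[X]}, 0 < P.leadingCoeff → P ≠ 0 := by
    rintro P hP rfl
    simp at hP
  exact ⟨hid, mason (by omega) (by omega) (by omega) f1 (hne g3) (hne h3)
    (coprime_of_eval (hne f3) (by linarith) f5 e5 cfg) hid⟩

end Pool.Agent.Results.MP_2738db_nt.PolynomialBases
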