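import Mathlib
import Pool.Agent.Y902.FB.ExR

/-!
# The Fermat-Catalan equation has no solutions with its three bases in a short interval

There are `κ` and `N₀` such that for all `N ≥ N₀` the interval `[N, N + N / (log N) ^ κ]` contains no
three pairwise coprime integers `a`, `b`, `c` with `a ^ m + b ^ n = c ^ k` for some positive
exponents `m`, `n`, `k`. There are no exceptional triples and no restriction on the exponents.
-/

set_option autoImplicit false

namespace Pool.Agent.Results.MP_2738db_nt.ShortIntervals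

open Pool.Agent.Y902.FB

/-- `n b ^ (n-1) (c - b) ≤ c ^ n - b ^ n ≤ n c ^ (n-1) (c - b)`. -/
theorem pow_diff {b c : ℝ} (hb : 0 ≤ b) (hbc : b ≤ c) (n : ℕ) :
    (n + 1 : ℕ) * b ^ n * (c - b) ≤ c ^ (n + 1) - b ^ (n + 1) ∧
      c ^ (n + 1) - b ^ (n + 1) ≤ (n + 1 : ℕ) * c ^ n * (c - b) := by
  have hc : 0 ≤ c := hb.trans hbc
  induction n with
  | zero => simp
  | succ n ih =>
    obtain ⟨h1, h2⟩ := ih
    have e : c ^ (n + 1 + 1) - b ^ (n + 1 + 1) =
        c * (c ^ (n + 1) - b ^ (n + 1)) + b ^ (n + 1) * (c - b) := by ring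
    have e' : c ^ (n + 1 + 1) - b ^ (n + 1 + 1) =
        b * (c ^ (n + 1) - b ^ (n + 1)) + c ^ (n + 1) * (c - b) := by ring
    have hd : 0 ≤ c - b := by linarith
    have hpos : 0 ≤ c ^ (n + 1) - b ^ (n + 1) := by
      have := pow_le_pow_left₀ hb hbc (n + 1)
      linarith
    constructor
    · rw [e]
      have h3 : b * ((n + 1 : ℕ) * b ^ n * (c - b)) ≤ c * (c ^ (n + 1) - b ^ (n + 1)) :=
        mul_le_mul hbc h1 (by positivity) hc
      have h4 : ((n + 1 + 1 : ℕ) : ℝ) * b ^ (n + 1) * (c - b) =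
          b * ((n + 1 : ℕ) * b ^ n * (c - b)) + b ^ (n + 1) * (c - b) := by push_cast; ring
      linarith
    · rw [e']
      have h3 : b * (c ^ (n + 1) - b ^ (n + 1)) ≤ c * ((n + 1 : ℕ) * c ^ n * (c - b)) :=
        mul_le_mul hbc h2 hpos hc
      have h4 : ((n + 1 + 1 : ℕ) : ℝ) * c ^ (n + 1) * (c - b) =
          c * ((n + 1 : ℕ) * c ^ n * (c - b)) + c ^ (n + 1) * (c - b) := by push_cast; ring
      linarith

/-- The elementary part: bounded exponents, the second term at least the first. -/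
theorem core {N δ : ℝ} (hN : 4 ≤ N) (hδ : 0 ≤ δ) {a b c m n k : ℕ}
    (ha : N ≤ a) (hb : N ≤ b) (hc : N ≤ c) (ha' : (a : ℝ) ≤ N * (1 + δ))
    (hc' : (c : ℝ) ≤ N * (1 + δ)) (hb' : (b : ℝ) ≤ N * (1 + δ))
    (hm : (m : ℝ) * δ ≤ 1 / 4) (hn : (n : ℝ) * δ ≤ 1 / 4) (hk : (k : ℝ) * δ ≤ 1 / 4)
    (hn2 : 2 ≤ n) (heq : a ^ m + b ^ n = c ^ k) (hab : a ^ m ≤ b ^ n) (ham : 0 < a ^ m) : False := by
  have hN0 : 0 < N := by linarith
  have hexp : ∀ i : ℕ, (i : ℝ) * δ ≤ 1 / 4 → (1 + δ) ^ i ≤ 3 / 2 := by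
    intro i hi
    have h1 : 1 + δ ≤ Real.exp δ := by linarith [Real.add_one_le_exp δ]
    calc (1 + δ) ^ i ≤ Real.exp δ ^ i := pow_le_pow_left₀ (by linarith) h1 i
      _ = Real.exp (i * δ) := by rw [← Real.exp_nat_mul]
      _ ≤ Real.exp (1 / 4) := Real.exp_le_exp.mpr hi
      _ ≤ 3 / 2 := by
        have h2 : Real.exp (1 / 4) ^ 4 ≤ (3 / 2) ^ 4 := by
          rw [← Real.exp_nat_mul]
          norm_num
          linarith [Real.exp_one_lt_d9]
        exact le_of_pow_le_pow_left₀ (by norm_num) (by norm_num) h2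
  have up : ∀ (x i : ℕ), (x : ℝ) ≤ N * (1 + δ) → (i : ℝ) * δ ≤ 1 / 4 →
      (x : ℝ) ^ i ≤ 3 / 2 * N ^ i := by
    intro x i hx hi
    calc (x : ℝ) ^ i ≤ (N * (1 + δ)) ^ i := pow_le_pow_left₀ (by positivity) hx i
      _ = (1 + δ) ^ i * N ^ i := by rw [mul_pow]; ring
      _ ≤ 3 / 2 * N ^ i := mul_le_mul_of_nonneg_right (hexp i hi) (by positivity)
  have lo : ∀ (x i : ℕ), N ≤ (x : ℝ) → N ^ i ≤ (x : ℝ) ^ i := fun x i hx =>
    pow_le_pow_left₀ hN0.le hx i
  have heqR : (a : ℝ) ^ m + (b : ℝ) ^ n = (c : ℝ) ^ k := by exact_mod_cast heq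
  have habR : (a : ℝ) ^ m ≤ (b : ℝ) ^ n := by exact_mod_cast hab
  have hamR : (0 : ℝ) < (a : ℝ) ^ m := by exact_mod_cast ham
  -- the exponents `k` and `n` are equal
  have hkn : k = n := by
    rcases lt_trichotomy k n with h | h | h
    · exfalso
      have h1 := up c k hc' hk
      have h2 := lo b n hb
      have h3 : N ^ (k + 1) ≤ N ^ n := pow_le_pow_right₀ (by linarith) h
      rw [pow_succ] at h3
      have h4 : 0 < N ^ k := by positivity
      nlinarith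
    · exact h
    · exfalso
      have h1 := up b n hb' hn
      have h2 := lo c k hc
      have h3 : N ^ (n + 1) ≤ N ^ k := pow_le_pow_right₀ (by linarith) h
      rw [pow_succ] at h3
      have h4 : 0 < N ^ n := by positivity
      nlinarith
  subst hkn
  -- now `b < c`
  have hbc : b < c := by
    by_contra hcon
    push Not at hcon
    have := Nat.pow_le_pow_left hcon k
    omega
  have hbcR : (b : ℝ) + 1 ≤ c := by exact_mod_cast hbc
  obtain ⟨j, rfl⟩ : ∃ j, k = j + 1 := ⟨k - 1, by omega⟩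
  obtain ⟨h1, h2⟩ := pow_diff (b := (b : ℝ)) (c := c) (by positivity) (by linarith) j
  have hbj := lo b j hb
  have hjδ : (j : ℝ) * δ ≤ 1 / 4 := by
    push_cast at hk
    nlinarith
  have hcj := up c j hc' hjδ
  have hNj : 0 < N ^ j := by positivity
  have hj1 : (1 : ℝ) ≤ j := by exact_mod_cast (show 1 ≤ j by omega)
  rcases Nat.lt_or_ge m (j + 1) with h | h
  · -- `m ≤ n - 1`
    have h3 := up a m ha' hm
    have h4 : N ^ m ≤ N ^ j := pow_le_pow_right₀ (by linarith) (by omega)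
    have h5 : 2 * N ^ j ≤ ((j + 1 : ℕ) : ℝ) * (b : ℝ) ^ j * (c - b) := by
      have e1 : (2 : ℝ) ≤ ((j + 1 : ℕ) : ℝ) := by push_cast; linarith
      have e2 : 2 * N ^ j ≤ ((j + 1 : ℕ) : ℝ) * (b : ℝ) ^ j :=
        mul_le_mul e1 hbj hNj.le (by positivity)
      have e3 : (0 : ℝ) ≤ ((j + 1 : ℕ) : ℝ) * (b : ℝ) ^ j := by positivity
      nlinarith
    linarith
  · -- `m ≥ n`
    have h3 := lo a m ha
    have h4 : N ^ (j + 1) ≤ N ^ m := pow_le_pow_right₀ (by linarith) h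
    have h5 : (c : ℝ) - b ≤ N * δ := by linarith
    have h6 : ((j + 1 : ℕ) : ℝ) * (c : ℝ) ^ j * (c - b) ≤
        ((j + 1 : ℕ) : ℝ) * (3 / 2 * N ^ j) * (N * δ) := by
      apply mul_le_mul _ h5 (by linarith) (by positivity)
      exact mul_le_mul_of_nonneg_left hcj (by positivity)
    have h7 : ((j + 1 : ℕ) : ℝ) * (3 / 2 * N ^ j) * (N * δ) =
        3 / 2 * N ^ (j + 1) * (((j + 1 : ℕ) : ℝ) * δ) := by rw [pow_succ]; ring
    have h8 : 3 / 2 * N ^ (j + 1) * (((j + 1 : ℕ) : ℝ) * δ) ≤ 3 / 2 * N ^ (j + 1) * (1 / 4) :=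
      mul_le_mul_of_nonneg_left hk (by positivity)
    have h9 : 0 < N ^ (j + 1) := by positivity
    linarith

theorem two_pow_large : ∀ s : ℕ, 64 ≤ s → 2 * (2 * 10 ^ 9 * s ^ 4 + 2 * s + 7) < 2 ^ s := by
  intro s hs
  induction s, hs using Nat.le_induction with
  | base => norm_num
  | succ s hs ih =>
    have h1 : (s + 1) ^ 4 ≤ 2 * s ^ 4 := by
      obtain ⟨t, rfl⟩ : ∃ t, s = t + 64 := ⟨s - 64, by omega⟩
      ring_nf
      nlinarith [Nat.zero_le t, Nat.zero_le (t ^ 2), Nat.zero_le (t ^ 3), Nat.zero_le (t ^ 4)]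
    rw [pow_succ 2 s]
    have h2 : 2 * 10 ^ 9 * (s + 1) ^ 4 ≤ 2 * (2 * 10 ^ 9 * s ^ 4) := by
      have := Nat.mul_le_mul_left (2 * 10 ^ 9) h1
      calc 2 * 10 ^ 9 * (s + 1) ^ 4 ≤ 2 * 10 ^ 9 * (2 * s ^ 4) := this
        _ = 2 * (2 * 10 ^ 9 * s ^ 4) := by ring
    omega

/-- Exponents of two close powers: `c ^ k - b ^ n = a` with `a, b, c ≤ 2 ^ S`, `S ≥ 64`. -/
theorem exp_one {S a b c n k : ℕ} (hS : 64 ≤ S) (hb2 : 2 ≤ b) (hc2 : 2 ≤ c) (haS : a ≤ 2 ^ S)
    (hbS : b ≤ 2 ^ S) (hcS : c ≤ 2 ^ S) (hn : 1 ≤ n) (hk : 1 ≤ k) (ha : 0 < a)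
    (heq : a + b ^ n = c ^ k) : n ≤ 10 ^ 11 * S ^ 4 ∧ k ≤ 10 ^ 11 * S ^ 4 := by
  have hne : c ^ k ≠ b ^ n := by omega
  have habs : ∀ T, S ≤ T → |((c : ℤ) ^ k) - (b : ℤ) ^ n| ≤ 2 ^ T := by
    intro T hT
    have h1 : ((c : ℤ) ^ k) - (b : ℤ) ^ n = a := by
      have : (a : ℤ) + (b : ℤ) ^ n = (c : ℤ) ^ k := by exact_mod_cast heq
      linarith
    rw [h1, Nat.abs_cast]
    exact_mod_cast haS.trans (Nat.pow_le_pow_right (by norm_num) hT)
  have hkS : k ≤ 2 ^ S := by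
    by_contra hcon
    push Not at hcon
    obtain ⟨s, hs⟩ : ∃ s, s = Nat.log 2 k + 1 := ⟨_, rfl⟩
    have h1 : k < 2 ^ s := by rw [hs]; exact Nat.lt_pow_succ_log_self (by norm_num) _
    have h2 : 2 ^ (Nat.log 2 k) ≤ k := Nat.pow_log_le_self 2 (by omega)
    have h3 : S < s := by
      by_contra h4
      push Not at h4
      have := Nat.pow_le_pow_right (show 0 < 2 by norm_num) h4
      omega
    have h4 := (Pool.Agent.TH888.B1.arch_diff (S := s) (T := s) (A := b) (U := c) (m := n) (k := k)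
      (by omega) hb2 hc2 (hbS.trans (Nat.pow_le_pow_right (by norm_num) h3.le))
      (hcS.trans (Nat.pow_le_pow_right (by norm_num) h3.le)) hn hk h1.le hne
      (habs s h3.le)).2
    have h5 := two_pow_large s (by omega)
    have h6 : 2 ^ s = 2 * 2 ^ (Nat.log 2 k) := by rw [hs, pow_succ]; ring
    omega
  have h := Pool.Agent.TH888.B1.arch_diff (S := S) (T := S) (A := b) (U := c) (m := n) (k := k)
      (by omega) hb2 hc2 hbS hcS hn hk hkS hne (habs S le_rfl)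
  have hS4 : S ≤ S ^ 4 := by
    calc S = S ^ 1 := (pow_one S).symm
      _ ≤ S ^ 4 := Nat.pow_le_pow_right (by omega) (by norm_num)
  constructor <;> omega

/-- All exponents are bounded by a power of the logarithm. -/
theorem exp_all : ∃ (D : ℝ) (κ : ℕ), 0 < D ∧ ∃ N₁ : ℕ, ∀ N : ℕ, N₁ ≤ N → ∀ a b c m n k : ℕ,
    N ≤ a → N ≤ b → N ≤ c → a < 2 * N → b < 2 * N → c < 2 * N →
    Nat.Coprime a b → Nat.Coprime a c → Nat.Coprime b c → 1 ≤ m → 1 ≤ n → 1 ≤ k →
    a ^ m + b ^ n = c ^ k →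
    (m : ℝ) ≤ D * Real.log N ^ κ ∧ (n : ℝ) ≤ D * Real.log N ^ κ ∧ (k : ℝ) ≤ D * Real.log N ^ κ ∧
      2 ≤ k ∧ (2 ≤ m ∨ 2 ≤ n) := by
  obtain ⟨C, κ, hC, h⟩ := exp_bound_real
  refine ⟨C * 2 ^ κ + 10 ^ 11 * 8 ^ 4 + 1, κ + 4, by positivity, 2 ^ 64, ?_⟩
  intro N hN a b c m n k ha hb hc ha' hb' hc' hab hac hbc hm hn hk heq
  have hN64 : (2 : ℕ) ^ 64 ≤ N := hN
  have hNR : (2 : ℝ) ^ 64 ≤ N := by exact_mod_cast hN
  have hN0 : (0 : ℝ) < N := lt_of_lt_of_le (by positivity) hNR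
  have hlog : 1 ≤ Real.log N := by
    have h1 := Real.log_le_log (by positivity) hNR
    rw [Real.log_pow] at h1
    have := Real.log_two_gt_d9
    norm_num at h1
    linarith
  have hpow1 : ∀ {x i : ℕ}, 1 ≤ i → N ≤ x → N ≤ x ^ i := fun hi hx =>
    hx.trans (Nat.le_self_pow (by omega) _)
  have hk2 : 2 ≤ k := by
    by_contra hcon
    have hk1 : k = 1 := by omega
    rw [hk1, pow_one] at heq
    have h1 := hpow1 hm ha
    have h2 := hpow1 hn hb
    omega
  have hmn : 2 ≤ m ∨ 2 ≤ n := by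
    by_contra hcon
    push Not at hcon
    have hm1 : m = 1 := by omega
    have hn1 : n = 1 := by omega
    rw [hm1, hn1, pow_one, pow_one] at heq
    have h1 : c ^ 2 ≤ c ^ k := Nat.pow_le_pow_right (by omega) hk2
    have h2 : N * N ≤ c * c := Nat.mul_le_mul hc hc
    have h3 : 4 * N ≤ N * N := Nat.mul_le_mul_right N (by omega)
    rw [sq] at h1
    omega
  have e1 : Real.log N ^ κ ≤ Real.log N ^ (κ + 4) := pow_le_pow_right₀ hlog (by omega)
  have e2 : Real.log N ^ 4 ≤ Real.log N ^ (κ + 4) := pow_le_pow_right₀ hlog (by omega)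
  have e3 : 0 ≤ Real.log N ^ (κ + 4) := by positivity
  by_cases h2 : 2 ≤ m ∧ 2 ≤ n
  · obtain ⟨k1, k2, k3⟩ := h a b c m n k (by omega) (by omega) (by omega) hab hac hbc h2.1 h2.2 hk2 heq
    have hmax : Real.log ((max a (max b c) : ℕ) : ℝ) ≤ 2 * Real.log N := by
      have h5 : ((max a (max b c) : ℕ) : ℝ) ≤ (N : ℝ) ^ 2 := by
        have h6 : max a (max b c) ≤ 2 * N := by
          rw [max_le_iff, max_le_iff]
          omega
        have h7 : 2 * N ≤ N ^ 2 := by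
          rw [sq]
          exact Nat.mul_le_mul_right N (by omega)
        exact_mod_cast h6.trans h7
      have h8 : (0 : ℝ) < ((max a (max b c) : ℕ) : ℝ) := by
        have : 0 < max a (max b c) := lt_of_lt_of_le (by omega) (le_max_left _ _)
        exact_mod_cast this
      have h9 := Real.log_le_log h8 h5
      rw [Real.log_pow] at h9
      exact_mod_cast h9
    have hmax0 : 0 ≤ Real.log ((max a (max b c) : ℕ) : ℝ) := by
      apply Real.log_nonneg
      have : 1 ≤ max a (max b c) := le_trans (by omega) (le_max_left a (max b c))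
      exact_mod_cast this
    have key : ∀ x : ℕ, (x : ℝ) ≤ C * Real.log ((max a (max b c) : ℕ) : ℝ) ^ κ →
        (x : ℝ) ≤ (C * 2 ^ κ + 10 ^ 11 * 8 ^ 4 + 1) * Real.log N ^ (κ + 4) := by
      intro x hx
      have h10 : Real.log ((max a (max b c) : ℕ) : ℝ) ^ κ ≤ (2 * Real.log N) ^ κ :=
        pow_le_pow_left₀ hmax0 hmax κ
      rw [mul_pow] at h10
      have h11 : C * Real.log ((max a (max b c) : ℕ) : ℝ) ^ κ ≤ C * (2 ^ κ * Real.log N ^ κ) :=
        mul_le_mul_of_nonneg_left h10 hC.le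
      have h12 : C * (2 ^ κ * Real.log N ^ κ) ≤ C * (2 ^ κ * Real.log N ^ (κ + 4)) := by
        apply mul_le_mul_of_nonneg_left _ hC.le
        exact mul_le_mul_of_nonneg_left e1 (by positivity)
      nlinarith
    exact ⟨key m (k1 (by omega)), key n (k2 (by omega)), key k k3, hk2, hmn⟩
  · -- one of the exponents `m`, `n` is `1`
    obtain ⟨S, hS⟩ : ∃ S, S = Nat.log 2 N + 2 := ⟨_, rfl⟩
    have hlogN : 64 ≤ Nat.log 2 N := Nat.le_log_of_pow_le (by norm_num) hN64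
    have hNS : 2 * N ≤ 2 ^ S := by
      have h1 : N < 2 ^ (Nat.log 2 N + 1) := Nat.lt_pow_succ_log_self (by norm_num) _
      rw [hS, pow_succ]
      omega
    have hSR : (S : ℝ) ≤ 8 * Real.log N := by
      have g3 : (2 : ℝ) ^ (Nat.log 2 N) ≤ N := by
        exact_mod_cast Nat.pow_log_le_self 2 (by omega)
      have g4 := Real.log_le_log (by positivity) g3
      rw [Real.log_pow] at g4
      have hlog2 : (0.6931471803 : ℝ) < Real.log 2 := Real.log_two_gt_d9
      have hl : (0 : ℝ) ≤ (Nat.log 2 N : ℝ) := by positivity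
      rw [hS]
      push_cast
      nlinarith
    have key : ∀ x : ℕ, x ≤ 10 ^ 11 * S ^ 4 →
        (x : ℝ) ≤ (C * 2 ^ κ + 10 ^ 11 * 8 ^ 4 + 1) * Real.log N ^ (κ + 4) := by
      intro x hx
      have h1 : (x : ℝ) ≤ 10 ^ 11 * (S : ℝ) ^ 4 := by exact_mod_cast hx
      have h2 : (S : ℝ) ^ 4 ≤ (8 * Real.log N) ^ 4 := pow_le_pow_left₀ (by positivity) hSR 4
      rw [mul_pow] at h2
      have h3 : (0 : ℝ) ≤ C * 2 ^ κ * Real.log N ^ (κ + 4) := by positivity
      nlinarith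
    have one : (((1 : ℕ) : ℕ) : ℝ) ≤ (C * 2 ^ κ + 10 ^ 11 * 8 ^ 4 + 1) * Real.log N ^ (κ + 4) := by
      have h1 : 1 ≤ Real.log N ^ (κ + 4) := one_le_pow₀ hlog
      have h3 : (0 : ℝ) ≤ C * 2 ^ κ * Real.log N ^ (κ + 4) := by positivity
      push_cast
      nlinarith
    rcases hmn with h3 | h3
    · have hn1 : n = 1 := by omega
      rw [hn1, pow_one] at heq
      obtain ⟨g1, g2⟩ := exp_one (S := S) (a := b) (b := a) (c := c) (n := m) (k := k) (by omega)
        (by omega) (by omega) (by omega) (by omega) (by omega) hm hk (by omega) (by omega)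
      rw [hn1]
      exact ⟨key m g1, one, key k g2, hk2, Or.inl h3⟩
    · have hm1 : m = 1 := by omega
      rw [hm1, pow_one] at heq
      obtain ⟨g1, g2⟩ := exp_one (S := S) (a := a) (b := b) (c := c) (n := n) (k := k) (by omega)
        (by omega) (by omega) (by omega) (by omega) (by omega) hn hk (by omega) (by omega)
      rw [hm1]
      exact ⟨one, key n g1, key k g2, hk2, Or.inr h3⟩

/-- **No solution of the Fermat-Catalan equation has its bases in a short interval.** -/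
theorem result : ∃ κ N₀ : ℕ, ∀ N : ℕ, N₀ ≤ N → ∀ a b c m n k : ℕ,
    N ≤ a → (a : ℝ) ≤ N + N / Real.log N ^ κ → N ≤ b → (b : ℝ) ≤ N + N / Real.log N ^ κ →
    N ≤ c → (c : ℝ) ≤ N + N / Real.log N ^ κ →
    Nat.Coprime a b → Nat.Coprime a c → Nat.Coprime b c → 0 < m → 0 < n → 0 < k →
    a ^ m + b ^ n ≠ c ^ k := by
  obtain ⟨D, κ, hD, N₁, h⟩ := exp_all
  obtain ⟨N₂, hN₂⟩ := exists_nat_ge (Real.exp (4 * D + 2))
  refine ⟨κ + 1, N₁ + N₂ + 4, ?_⟩
  intro N hN a b c m n k ha ha' hb hb' hc hc' hab hac hbc hm hn hk heq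
  have hNR : Real.exp (4 * D + 2) ≤ N := hN₂.trans (by exact_mod_cast (by omega : N₂ ≤ N))
  have hN0 : (0 : ℝ) < N := lt_of_lt_of_le (Real.exp_pos _) hNR
  have hlog : 4 * D + 2 ≤ Real.log N := by
    rw [Real.le_log_iff_exp_le hN0]
    exact hNR
  have hlog2 : 2 ≤ Real.log N := by linarith
  have hlogpos : 0 < Real.log N := by linarith
  obtain ⟨δ, hδ⟩ : ∃ δ : ℝ, δ = 1 / Real.log N ^ (κ + 1) := ⟨_, rfl⟩
  have hδ0 : 0 < δ := by rw [hδ]; positivity
  have hδ2 : δ ≤ 1 / 2 := by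
    rw [hδ]
    apply one_div_le_one_div_of_le (by norm_num)
    calc (2 : ℝ) ≤ Real.log N := hlog2
      _ = Real.log N ^ 1 := (pow_one _).symm
      _ ≤ Real.log N ^ (κ + 1) := pow_le_pow_right₀ (by linarith) (by omega)
  have hup : (N : ℝ) + N / Real.log N ^ (κ + 1) = N * (1 + δ) := by rw [hδ]; ring
  rw [hup] at ha' hb' hc'
  have hlt : ∀ x : ℕ, (x : ℝ) ≤ N * (1 + δ) → x < 2 * N := by
    intro x hx
    have : (x : ℝ) < ((2 * N : ℕ) : ℝ) := by
      push_cast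
      nlinarith
    exact_mod_cast this
  obtain ⟨g1, g2, g3, hk2, hmn⟩ := h N (by omega) a b c m n k ha hb hc (hlt a ha') (hlt b hb')
    (hlt c hc') hab hac hbc hm hn hk heq
  have hsmall : ∀ x : ℕ, (x : ℝ) ≤ D * Real.log N ^ κ → (x : ℝ) * δ ≤ 1 / 4 := by
    intro x hx
    have h1 : (x : ℝ) * δ ≤ D * Real.log N ^ κ * δ := mul_le_mul_of_nonneg_right hx hδ0.le
    have h2 : D * Real.log N ^ κ * δ = D / Real.log N := by
      rw [hδ, pow_succ]
      field_simp
    have h3 : D / Real.log N ≤ 1 / 4 := by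
      rw [div_le_div_iff₀ hlogpos (by norm_num)]
      linarith
    linarith
  have haN : (N : ℝ) ≤ a := by exact_mod_cast ha
  have hbN : (N : ℝ) ≤ b := by exact_mod_cast hb
  have hcN : (N : ℝ) ≤ c := by exact_mod_cast hc
  have hN4 : (4 : ℝ) ≤ N := by exact_mod_cast (by omega : 4 ≤ N)
  have hpa : 0 < a ^ m := Nat.pow_pos (by omega)
  have hpb : 0 < b ^ n := Nat.pow_pos (by omega)
  rcases le_total (a ^ m) (b ^ n) with h1 | h1
  · by_cases hn2 : 2 ≤ n
    · exact core hN4 hδ0.le haN hbN hcN ha' hc' hb' (hsmall m g1) (hsmall n g2) (hsmall k g3) hn2 heq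
        h1 hpa
    · -- `n = 1`, `m ≥ 2` : impossible by size
      have hn1 : n = 1 := by omega
      have hm2 : 2 ≤ m := by omega
      rw [hn1, pow_one] at h1
      have h2 : a ^ 2 ≤ a ^ m := Nat.pow_le_pow_right (by omega) hm2
      have h3 : N * N ≤ a * a := Nat.mul_le_mul ha ha
      have h4 : 4 * N ≤ N * N := Nat.mul_le_mul_right N (by omega)
      have h5 := hlt b hb'
      rw [sq] at h2
      omega
  · by_cases hm2 : 2 ≤ m
    · exact core hN4 hδ0.le hbN haN hcN hb' hc' ha' (hsmall n g2) (hsmall m g1) (hsmall k g3) hm2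
        (by rw [add_comm]; exact heq) h1 hpb
    · have hm1 : m = 1 := by omega
      have hn2 : 2 ≤ n := by omega
      rw [hm1, pow_one] at h1
      have h2 : b ^ 2 ≤ b ^ n := Nat.pow_le_pow_right (by omega) hn2
      have h3 : N * N ≤ b * b := Nat.mul_le_mul hb hb
      have h4 : 4 * N ≤ N * N := Nat.mul_le_mul_right N (by omega)
      have h5 := hlt a ha'
      rw [sq] at h2
      omega

end Pool.Agent.Results.MP_2738db_nt.ShortIntervals
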