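import Mathlib
import Pool.Agent.Q103.SD.Sparse

/-!
# `x ^ m + β y ^ n = γ z ^ k` with `y`, `z` composed of sparse bases

`t` is a large power of a prime `p`; the bases are numbers with small digits (of either sign) in base
`t` whose first and last digits are `1` or `-1`; `y`, `z` are products of powers of the bases, and
`x = p ^ j * w` with a free factor `w`.
-/

set_option autoImplicit false

namespace Pool.Agent.Results.MP_2738db_nt.SparseProducts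

open Polynomial Finset Filter

/-- The bases `F_i(t)`, `i < N`, are the values at `t` of nonconstant polynomials with coefficients
(digits) of absolute value at most `H` and first and last digit `1` or `-1`, of total degree at most
`K`. -/
structure Bases (K : ℕ) (H : ℝ) {N : ℕ} (F : Fin N → ℤ[X]) : Prop where
  pos : ∀ i, 0 < (F i).natDegree
  deg : ∑ i, (F i).natDegree ≤ K
  digits : ∀ i j, |((F i).coeff j : ℝ)| ≤ H
  last : ∀ i, (F i).coeff 0 = 1 ∨ (F i).coeff 0 = -1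
  first : ∀ i, (F i).leadingCoeff = 1 ∨ (F i).leadingCoeff = -1

theorem used_le {N : ℕ} (q : Fin N → ℤ) (hq : ∀ i, q i ≠ 0) (b c : Fin N → ℕ) :
    |((∏ i ∈ Pool.Agent.Q103.SD.used2 b c, q i : ℤ) : ℝ)| ≤
      |((∏ i, q i ^ b i : ℤ) : ℝ)| * |((∏ i, q i ^ c i : ℤ) : ℝ)| := by
  have h1 : |∏ i ∈ Pool.Agent.Q103.SD.used2 b c, q i| ≤ |∏ i, q i ^ b i| * |∏ i, q i ^ c i| := by
    rw [← abs_mul, ← Finset.prod_mul_distrib]
    have h2 : ∏ i ∈ Pool.Agent.Q103.SD.used2 b c, q i ∣ ∏ i, (q i ^ b i * q i ^ c i) := by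
      refine dvd_trans ?_ (Finset.prod_dvd_prod_of_subset (Pool.Agent.Q103.SD.used2 b c)
        Finset.univ _ (Finset.subset_univ _))
      apply Finset.prod_dvd_prod_of_dvd
      intro i hi
      rcases (Finset.mem_filter.mp hi).2 with h | h
      · exact (dvd_pow_self _ h).mul_right _
      · exact (dvd_pow_self _ h).mul_left _
    exact Int.le_of_dvd (abs_pos.mpr (Finset.prod_ne_zero_iff.mpr fun i _ =>
      mul_ne_zero (pow_ne_zero _ (hq i)) (pow_ne_zero _ (hq i)))) ((abs_dvd_abs _ _).mpr h2)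
  exact_mod_cast h1

theorem result (K : ℕ) (ε : ℝ) (hε : 0 < ε) : ∃ δ : ℝ, 0 < δ ∧ ∃ t₀ : ℕ, ∀ p v t : ℕ, p.Prime →
    t = p ^ v → t₀ ≤ t →
    ∀ (N : ℕ) (F : Fin N → ℤ[X]), Bases K ((t : ℝ) ^ δ) F →
    ∀ b c : Fin N → ℕ, (∃ i, b i ≠ 0 ∨ c i ≠ 0) →
    ∀ y z : ℤ, y = ∏ i, (F i).eval (t : ℤ) ^ b i → z = ∏ i, (F i).eval (t : ℤ) ^ c i →
    ∀ β γ : ℤ, β ≠ 0 → γ ≠ 0 → |(β : ℝ)| ≤ (t : ℝ) ^ δ → |(γ : ℝ)| ≤ (t : ℝ) ^ δ →
    ∀ (m n k : ℕ), 1 ≤ m → 1 ≤ n → 1 ≤ k → ∀ (j : ℕ) (w : ℤ), w ≠ 0 →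
      ((p : ℤ) ^ j * w) ^ m + β * y ^ n = γ * z ^ k →
      (max (|(y : ℝ)| ^ n) (|(z : ℝ)| ^ k)) ^ (1 - 1 / (n : ℝ) - 1 / (k : ℝ) - ε) ≤
        |(w : ℝ)| ^ m ∧
      (2 ≤ n → 2 ≤ k → 5 ≤ n + k →
        |(((p : ℤ) ^ j * w : ℤ) : ℝ)| ^ (1 / 6 - ε) ≤ |(w : ℝ)|) := by
  obtain ⟨ε₁, hε₁⟩ : ∃ ε₁, ε₁ = min (ε / 2) (1 / 12) := ⟨_, rfl⟩
  have hε₁0 : 0 < ε₁ := by rw [hε₁]; exact lt_min (by linarith) (by norm_num)
  have hε₁1 : ε₁ ≤ 1 / 12 := by rw [hε₁]; exact min_le_right _ _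
  have hε₁2 : ε₁ ≤ ε / 2 := by rw [hε₁]; exact min_le_left _ _
  obtain ⟨δ, hδ, hδ', t₀, ht₀, h⟩ := Pool.Agent.Q103.SD.sparse K ε₁ hε₁0
  obtain ⟨δ', hδ'e⟩ : ∃ δ', δ' = min δ (ε₁ / 4) := ⟨_, rfl⟩
  have hδ'0 : 0 < δ' := by rw [hδ'e]; exact lt_min hδ (by linarith)
  have hδ'1 : δ' ≤ δ := by rw [hδ'e]; exact min_le_left _ _
  have hδ'2 : δ' ≤ ε₁ / 4 := by rw [hδ'e]; exact min_le_right _ _
  have hwe : Tendsto (fun t : ℕ => (t : ℝ) ^ (ε₁ / 4)) atTop atTop :=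
    (tendsto_rpow_atTop (by positivity)).comp tendsto_natCast_atTop_atTop
  obtain ⟨t₁, ht₁⟩ := eventually_atTop.mp (hwe.eventually_ge_atTop 2)
  refine ⟨δ', hδ'0, max t₀ t₁, ?_⟩
  intro p v t hp htp ht N F hS b c hbc y z hy hz β γ hβ hγ hβt hγt m n k hm hn hk j w hw heq
  have htt₀ : t₀ ≤ t := (le_max_left _ _).trans ht
  have htt₁ := ht₁ t ((le_max_right _ _).trans ht)
  have htR : (64 : ℝ) ≤ t := by exact_mod_cast ht₀.trans htt₀
  have ht0 : (0 : ℝ) < t := by linarith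
  have hle : (t : ℝ) ^ δ' ≤ (t : ℝ) ^ δ := Real.rpow_le_rpow_of_exponent_le (by linarith) hδ'1
  obtain ⟨H, hH⟩ : ∃ H : ℝ, H = (t : ℝ) ^ δ := ⟨_, rfl⟩
  have hH1 : 1 ≤ H := by rw [hH]; exact Real.one_le_rpow (by linarith) hδ.le
  have hD : Pool.Agent.Q103.SD.Data2 t K ((t : ℝ) ^ δ) F β γ :=
    ⟨hS.pos, hS.deg, fun i j => (hS.digits i j).trans hle, hS.last, hS.first, hβ, hγ,
      hβt.trans hle, hγt.trans hle⟩
  have hHt : 8 * H ≤ t := by
    obtain ⟨ρ, hρ⟩ : ∃ ρ : ℝ, ρ = (t : ℝ) ^ (1 / 2 : ℝ) := ⟨_, rfl⟩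
    have hρρ : ρ * ρ = t := by
      rw [hρ, ← Real.rpow_add ht0]
      norm_num
    have hρ8 : 8 ≤ ρ := by
      have hρ0 : 0 ≤ ρ := by rw [hρ]; positivity
      nlinarith
    have hHρ : H ≤ ρ := by
      rw [hH, hρ]
      exact Real.rpow_le_rpow_of_exponent_le (by linarith) (by linarith)
    nlinarith
  have hvl : ∀ i, (t : ℝ) / 2 ≤ |(((F i).eval (t : ℤ) : ℤ) : ℝ)| :=
    (Pool.Agent.Q103.SD.values (H := H) (by rw [hH]; exact hD) (ht₀.trans htt₀) hH1 hHt).2.1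
  have hF0 : ∀ i, (F i).eval (t : ℤ) ≠ 0 := by
    intro i h0
    have h3 := hvl i
    rw [h0, Int.cast_zero, abs_zero] at h3
    linarith
  have hpow : ∀ (x : ℤ) (e : Fin N → ℕ) (l : ℕ), x = ∏ i, (F i).eval (t : ℤ) ^ e i →
      ∏ i, (F i).eval (t : ℤ) ^ (l * e i) = x ^ l := by
    intro x e l hx
    rw [hx, ← Finset.prod_pow]
    apply Finset.prod_congr rfl
    intro i _
    rw [← pow_mul, mul_comm]
  have hprod : ∀ e : Fin N → ℕ, ∏ i, (F i).eval (t : ℤ) ^ e i ≠ 0 := fun e =>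
    Finset.prod_ne_zero_iff.mpr fun i _ => pow_ne_zero _ (hF0 i)
  have hy0 : y ≠ 0 := by rw [hy]; exact hprod b
  have hz0 : z ≠ 0 := by rw [hz]; exact hprod c
  have hused : Pool.Agent.Q103.SD.used2 (fun i => n * b i) (fun i => k * c i) =
      Pool.Agent.Q103.SD.used2 b c := by
    ext i
    simp only [Pool.Agent.Q103.SD.used2, Finset.mem_filter, Finset.mem_univ, true_and, Ne,
      Nat.mul_eq_zero, not_or]
    constructor
    · rintro (h | h)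
      · exact Or.inl h.2
      · exact Or.inr h.2
    · rintro (h | h)
      · exact Or.inl ⟨by omega, h⟩
      · exact Or.inr ⟨by omega, h⟩
  have hU : (Pool.Agent.Q103.SD.used2 b c).Nonempty := by
    obtain ⟨i, hi⟩ := hbc
    exact ⟨i, Finset.mem_filter.mpr ⟨Finset.mem_univ _, hi⟩⟩
  have hmain := h p v t hp htp htt₀ N F β γ hD (fun i => n * b i) (fun i => k * c i)
    (by rw [hused]; exact hU) (j * m) (w ^ m) (pow_ne_zero _ hw) (by
      rw [hpow y b n hy, hpow z c k hz, ← heq]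
      ring)
  rw [hused, hpow y b n hy, hpow z c k hz] at hmain
  obtain ⟨Q, hQ⟩ : ∃ Q : ℝ,
      Q = |((∏ i ∈ Pool.Agent.Q103.SD.used2 b c, (F i).eval (t : ℤ) : ℤ) : ℝ)| := ⟨_, rfl⟩
  obtain ⟨M', hM'⟩ : ∃ M' : ℝ, M' = max |((γ * z ^ k : ℤ) : ℝ)| |((β * y ^ n : ℤ) : ℝ)| :=
    ⟨_, rfl⟩
  rw [← hQ, ← hM'] at hmain
  have hQyz : Q ≤ |(y : ℝ)| * |(z : ℝ)| := by
    rw [hQ, hy, hz]
    exact used_le _ hF0 b c
  obtain ⟨M, hM⟩ : ∃ M : ℝ, M = max (|(y : ℝ)| ^ n) (|(z : ℝ)| ^ k) := ⟨_, rfl⟩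
  rw [← hM]
  have hy1 : (1 : ℝ) ≤ |(y : ℝ)| := by exact_mod_cast Int.one_le_abs hy0
  have hz1 : (1 : ℝ) ≤ |(z : ℝ)| := by exact_mod_cast Int.one_le_abs hz0
  have hβ1 : (1 : ℝ) ≤ |(β : ℝ)| := by exact_mod_cast Int.one_le_abs hβ
  have hγ1 : (1 : ℝ) ≤ |(γ : ℝ)| := by exact_mod_cast Int.one_le_abs hγ
  have hw1 : (1 : ℝ) ≤ |(w : ℝ)| := by exact_mod_cast Int.one_le_abs hw
  have hMM' : M ≤ M' := by
    rw [hM, hM']
    push_cast
    rw [abs_mul, abs_mul, abs_pow, abs_pow]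
    apply max_le
    · refine le_trans ?_ (le_max_right _ _)
      exact le_mul_of_one_le_left (by positivity) hβ1
    · refine le_trans ?_ (le_max_left _ _)
      exact le_mul_of_one_le_left (by positivity) hγ1
  have hMy : |(y : ℝ)| ^ n ≤ M := by rw [hM]; exact le_max_left _ _
  have hMz : |(z : ℝ)| ^ k ≤ M := by rw [hM]; exact le_max_right _ _
  have hMt : (t : ℝ) / 2 ≤ M := by
    have hlow : ∀ (x : ℤ) (e : Fin N → ℕ), x = ∏ i, (F i).eval (t : ℤ) ^ e i → (∃ i, e i ≠ 0) →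
        (t : ℝ) / 2 ≤ |(x : ℝ)| := by
      intro x e hx ⟨i, hi⟩
      refine (hvl i).trans ?_
      have h1 : (F i).eval (t : ℤ) ∣ x := by
        rw [hx]
        exact (dvd_pow_self _ hi).trans (Finset.dvd_prod_of_mem
          (fun i => (F i).eval (t : ℤ) ^ e i) (Finset.mem_univ i))
      have h2 : |(F i).eval (t : ℤ)| ≤ |x| := Int.le_of_dvd
        (abs_pos.mpr (by rw [hx]; exact hprod e)) ((abs_dvd_abs _ _).mpr h1)
      exact_mod_cast h2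
    obtain ⟨i, hi⟩ := hbc
    rcases hi with hi | hi
    · exact ((hlow y b hy ⟨i, hi⟩).trans (le_self_pow₀ hy1 (by omega))).trans hMy
    · exact ((hlow z c hz ⟨i, hi⟩).trans (le_self_pow₀ hz1 (by omega))).trans hMz
  have hM1 : 1 ≤ M := by linarith
  have hM0 : 0 < M := by linarith
  have hroot : ∀ (a : ℝ) (l : ℕ), 1 ≤ a → 1 ≤ l → a ^ l ≤ M → a ≤ M ^ (1 / (l : ℝ)) := by
    intro a l ha hl hal
    have hl0 : (l : ℝ) ≠ 0 := by positivity
    calc a = (a ^ l) ^ (1 / (l : ℝ)) := by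
          rw [← Real.rpow_natCast a l, ← Real.rpow_mul (by linarith), mul_one_div_cancel hl0,
            Real.rpow_one]
      _ ≤ _ := Real.rpow_le_rpow (by positivity) hal (by positivity)
  have hyr := hroot _ n hy1 hn hMy
  have hzr := hroot _ k hz1 hk hMz
  have hwabs : |((w ^ m : ℤ) : ℝ)| = |(w : ℝ)| ^ m := by push_cast; rw [abs_pow]
  rw [hwabs] at hmain
  have hkey : M ^ (1 - 1 / (n : ℝ) - 1 / (k : ℝ) - ε₁) ≤ |(w : ℝ)| ^ m := by
    have h1 : M ^ (1 - ε₁) ≤ M' ^ (1 - ε₁) := Real.rpow_le_rpow hM0.le hMM' (by linarith)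
    have h2 : M ^ (1 - ε₁) ≤ |(w : ℝ)| ^ m * (M ^ (1 / (n : ℝ)) * M ^ (1 / (k : ℝ))) := by
      refine h1.trans (hmain.trans (mul_le_mul_of_nonneg_left (hQyz.trans ?_) (by positivity)))
      exact mul_le_mul hyr hzr (by linarith) (by positivity)
    have e1 : M ^ (1 - 1 / (n : ℝ) - 1 / (k : ℝ) - ε₁) =
        M ^ (1 - ε₁) / (M ^ (1 / (n : ℝ)) * M ^ (1 / (k : ℝ))) := by
      rw [← Real.rpow_add hM0, ← Real.rpow_sub hM0]
      congr 1
      ring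
    rw [e1, div_le_iff₀ (by positivity)]
    exact h2
  refine ⟨le_trans (Real.rpow_le_rpow_of_exponent_le hM1 (by linarith)) hkey, ?_⟩
  intro hn2 hk2 hnk
  obtain ⟨x, hx⟩ : ∃ x : ℤ, x = (p : ℤ) ^ j * w := ⟨_, rfl⟩
  rw [← hx] at heq ⊢
  have hx0 : x ≠ 0 := by
    rw [hx]
    exact mul_ne_zero (pow_ne_zero _ (by exact_mod_cast hp.ne_zero)) hw
  have hx1 : (1 : ℝ) ≤ |(x : ℝ)| := by exact_mod_cast Int.one_le_abs hx0
  -- `|x| ^ m ≤ 2 t ^ δ' M`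
  have hxm : |(x : ℝ)| ^ m ≤ 2 * (t : ℝ) ^ δ' * M := by
    have h1 : (x : ℝ) ^ m = γ * (z : ℝ) ^ k - β * (y : ℝ) ^ n := by
      have h2 : x ^ m = γ * z ^ k - β * y ^ n := by linarith
      exact_mod_cast h2
    rw [← abs_pow, h1]
    refine (abs_sub _ _).trans ?_
    rw [abs_mul, abs_mul, abs_pow, abs_pow]
    have e1 : |(γ : ℝ)| * |(z : ℝ)| ^ k ≤ (t : ℝ) ^ δ' * M :=
      mul_le_mul hγt hMz (by positivity) (by positivity)
    have e2 : |(β : ℝ)| * |(y : ℝ)| ^ n ≤ (t : ℝ) ^ δ' * M :=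
      mul_le_mul hβt hMy (by positivity) (by positivity)
    linarith
  have htM : 2 * (t : ℝ) ^ δ' ≤ M ^ ε₁ := by
    have h1 : (t : ℝ) ^ (ε₁ / 2) ≤ M ^ ε₁ := by
      have h2 : (t : ℝ) ^ (1 / 2 : ℝ) ≤ M := by
        obtain ⟨ρ, hρ⟩ : ∃ ρ : ℝ, ρ = (t : ℝ) ^ (1 / 2 : ℝ) := ⟨_, rfl⟩
        have hρρ : ρ * ρ = t := by
          rw [hρ, ← Real.rpow_add ht0]
          norm_num
        have hρ0 : 0 ≤ ρ := by rw [hρ]; positivity
        rw [← hρ]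
        nlinarith
      calc (t : ℝ) ^ (ε₁ / 2) = ((t : ℝ) ^ (1 / 2 : ℝ)) ^ ε₁ := by
            rw [← Real.rpow_mul ht0.le]
            congr 1
            ring
        _ ≤ _ := Real.rpow_le_rpow (by positivity) h2 hε₁0.le
    refine le_trans ?_ h1
    calc 2 * (t : ℝ) ^ δ' ≤ (t : ℝ) ^ (ε₁ / 4) * (t : ℝ) ^ (ε₁ / 4) := by
          apply mul_le_mul htt₁ _ (by positivity) (by positivity)
          exact Real.rpow_le_rpow_of_exponent_le (by linarith) hδ'2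
      _ = _ := by
          rw [← Real.rpow_add ht0]
          congr 1
          ring
  have hnk6 : 1 / (n : ℝ) + 1 / (k : ℝ) ≤ 5 / 6 := by
    have hn2' : (2 : ℝ) ≤ n := by exact_mod_cast hn2
    have hk2' : (2 : ℝ) ≤ k := by exact_mod_cast hk2
    rcases Nat.lt_or_ge n 3 with h3 | h3
    · have hk3 : (3 : ℝ) ≤ k := by exact_mod_cast (show 3 ≤ k by omega)
      have h4 : 1 / (n : ℝ) ≤ 1 / 2 := one_div_le_one_div_of_le (by norm_num) hn2'
      have h5 : 1 / (k : ℝ) ≤ 1 / 3 := one_div_le_one_div_of_le (by norm_num) hk3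
      linarith
    · have hn3 : (3 : ℝ) ≤ n := by exact_mod_cast h3
      have h4 : 1 / (n : ℝ) ≤ 1 / 3 := one_div_le_one_div_of_le (by norm_num) hn3
      have h5 : 1 / (k : ℝ) ≤ 1 / 2 := one_div_le_one_div_of_le (by norm_num) hk2'
      linarith
  -- the exponents
  by_cases hεc : ε ≤ 1 / 6
  · have hexp0 : 0 ≤ 1 / 6 - ε := by linarith
    have h1 : (|(x : ℝ)| ^ m) ^ (1 / 6 - ε) ≤ |(w : ℝ)| ^ m := by
      have h2 : |(x : ℝ)| ^ m ≤ M ^ (1 + ε₁) := by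
        refine hxm.trans ?_
        rw [Real.rpow_add hM0, Real.rpow_one, mul_comm M]
        exact mul_le_mul_of_nonneg_right htM hM0.le
      refine (Real.rpow_le_rpow (by positivity) h2 hexp0).trans ?_
      rw [← Real.rpow_mul hM0.le]
      refine le_trans (Real.rpow_le_rpow_of_exponent_le hM1 ?_) hkey
      nlinarith
    have h3 : (|(x : ℝ)| ^ (1 / 6 - ε)) ^ m ≤ |(w : ℝ)| ^ m := by
      refine le_trans (le_of_eq ?_) h1
      rw [← Real.rpow_natCast, ← Real.rpow_natCast, ← Real.rpow_mul (abs_nonneg _),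
        ← Real.rpow_mul (abs_nonneg _), mul_comm]
    exact le_of_pow_le_pow_left₀ (by omega) (abs_nonneg _) h3
  · push Not at hεc
    refine le_trans ?_ hw1
    exact Real.rpow_le_one_of_one_le_of_nonpos hx1 (by linarith)

end Pool.Agent.Results.MP_2738db_nt.SparseProducts
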